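import Pool.Agent.JKS.Defs
/-! Cnt (2): the edge count.  `out X v` = number of edges of the cut of `X` at `v` (for v ∈ X: the
edges from v to the complement of X).  Write Y = X.erase v0, S* = insert v0 S (disjoint from T),
T = ⋃ K, rest = (Y \ S) \ T.

PROOF.  (1) For k ∈ K an edge of `cut k` has exactly one end v in k; its other end w is not in k, and
by `hcl` it is not in Y \ S, so either w ∈ S* or w ∉ X, in the second case the edge is in `cut X`.
So Σ_k |cut k| ≤ (number of edges with one end in T and the other in S*) + Σ_{v ∈ T} out X v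
(the k are pairwise disjoint, so every edge is counted for at most one k in each of the two ways:
an edge of `cut k ∩ cut l`, k ≠ l, would join k to l ⊆ Y \ S, impossible by hcl).
(2) number of edges T–S* ≤ Σ_{s ∈ S*} (deg s - out X s) [at s the edges to T and the edges to the
complement of X are different], so ≤ r (|S|+1) - Σ_{S*} out (in ℕ written with + on the left).
(3) Σ_{v ∈ X} out X v = |cut X| (each edge of `cut X` has exactly one end in X), and X is the
disjoint union of S*, T, rest.  Add up. -/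
namespace Pool.Agent.JKS
open Finset
open scoped Classical

theorem Cnt_inc {V E : Type} (G : MG V E) (e : E) (X : Finset V) :
    ∑ v ∈ X, (if G.Inc e v then 1 else 0) = (if G.fst e ∈ X then 1 else 0) + (if G.snd e ∈ X then 1 else 0) := by
  have h : ∀ v ∈ X, (if G.Inc e v then 1 else 0) = (if G.fst e = v then 1 else 0) + (if G.snd e = v then 1 else 0) := by
    intro v _
    have hne := G.ne e
    unfold MG.Inc
    by_cases h1 : G.fst e = v
    · have h2 : G.snd e ≠ v := fun h2 => hne (h1.trans h2.symm)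
      simp [h1, h2]
    · by_cases h2 : G.snd e = v
      · simp [h1, h2]
      · simp [h1, h2]
  rw [Finset.sum_congr rfl h, Finset.sum_add_distrib, Finset.sum_ite_eq, Finset.sum_ite_eq]

theorem Cnt_mem {V E : Type} [Fintype E] (G : MG V E) (X : Finset V) (e : E) :
    e ∈ G.cut X ↔ (G.fst e ∈ X ∧ G.snd e ∉ X) ∨ (G.fst e ∉ X ∧ G.snd e ∈ X) := by
  unfold MG.cut
  rw [Finset.mem_filter]
  exact ⟨fun h => h.2, fun h => ⟨Finset.mem_univ _, h⟩⟩

theorem Cnt_out {V E : Type} [Fintype E] (G : MG V E) (X Z : Finset V) :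
    ∑ v ∈ Z, G.out X v = ∑ e : E, if e ∈ G.cut X then ((if G.fst e ∈ Z then 1 else 0) + (if G.snd e ∈ Z then 1 else 0)) else 0 := by
  have h1 : ∀ v ∈ Z, G.out X v = ∑ e : E, if e ∈ G.cut X then (if G.Inc e v then 1 else 0) else 0 := by
    intro v _
    unfold MG.out
    have h2 : (G.cut X).filter (fun e => G.Inc e v) = Finset.univ.filter (fun e => e ∈ G.cut X ∧ G.Inc e v) := by
      ext e
      simp
    rw [h2, Finset.card_filter]
    refine Finset.sum_congr rfl fun e _ => ?_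
    by_cases h3 : e ∈ G.cut X
    · simp [h3]
    · simp [h3]
  rw [Finset.sum_congr rfl h1, Finset.sum_comm]
  refine Finset.sum_congr rfl fun e _ => ?_
  by_cases h : e ∈ G.cut X
  · simp only [h, if_true]
    exact Cnt_inc G e Z
  · simp only [h, if_false, Finset.sum_const_zero]

theorem Cnt_deg {V E : Type} [Fintype E] (G : MG V E) (Z : Finset V) :
    ∑ v ∈ Z, G.deg v = ∑ e : E, ((if G.fst e ∈ Z then 1 else 0) + (if G.snd e ∈ Z then 1 else 0)) := by
  have h1 : ∀ v ∈ Z, G.deg v = ∑ e : E, (if G.Inc e v then 1 else 0) := by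
    intro v _
    unfold MG.deg
    rw [Finset.card_filter]
  rw [Finset.sum_congr rfl h1, Finset.sum_comm]
  exact Finset.sum_congr rfl fun e _ => Cnt_inc G e Z

theorem Cnt_cuts {V E : Type} [Fintype E] (G : MG V E) (K : Finset (Finset V)) :
    ∑ k ∈ K, (G.cut k).card = ∑ e : E, (K.filter (fun k => e ∈ G.cut k)).card := by
  have h1 : ∀ k ∈ K, (G.cut k).card = ∑ e : E, (if e ∈ G.cut k then 1 else 0) := by
    intro k _
    rw [← Finset.card_filter]
    congr 1
    ext e
    simp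
  rw [Finset.sum_congr rfl h1, Finset.sum_comm]
  exact Finset.sum_congr rfl fun e _ => (Finset.card_filter _ _).symm

theorem sum_out {V E : Type} [Fintype E] (G : MG V E) (X : Finset V) :
    ∑ v ∈ X, G.out X v = (G.cut X).card := by
  rw [Cnt_out]
  have h1 : (G.cut X).card = ∑ e : E, (if e ∈ G.cut X then 1 else 0) := by
    rw [← Finset.card_filter]
    congr 1
    ext e
    simp
  rw [h1]
  refine Finset.sum_congr rfl fun e _ => ?_
  by_cases h : e ∈ G.cut X
  · rw [if_pos h, if_pos h]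
    rcases (Cnt_mem G X e).1 h with ⟨h2, h3⟩ | ⟨h2, h3⟩
    · simp [h2, h3]
    · simp [h2, h3]
  · rw [if_neg h, if_neg h]

theorem Cnt_main {V E : Type} [Fintype E] (G : MG V E) (X : Finset V) (v0 : V) (hv0 : v0 ∈ X) (S : Finset V)
    (hS : S ⊆ X.erase v0) (K : Finset (Finset V)) (hK : ∀ k ∈ K, k ⊆ (X.erase v0) \ S)
    (hdis : ∀ k ∈ K, ∀ l ∈ K, k ≠ l → Disjoint k l)
    (hcl : ∀ k ∈ K, ∀ v ∈ k, ∀ w ∈ (X.erase v0) \ S, G.Adj v w → w ∈ k) :
    ∑ k ∈ K, (G.cut k).card + ∑ s ∈ insert v0 S, G.out X s ≤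
      ∑ s ∈ insert v0 S, G.deg s + ∑ v ∈ K.biUnion id, G.out X v := by
  have hSX : ∀ v, v ∈ insert v0 S → v ∈ X := by
    intro v hv
    rcases Finset.mem_insert.1 hv with rfl | hv
    · exact hv0
    · exact Finset.mem_of_mem_erase (hS hv)
  have hKS : ∀ k ∈ K, ∀ v ∈ k, v ∉ insert v0 S := by
    intro k hk v hv hv2
    have h1 := hK k hk hv
    rw [Finset.mem_sdiff, Finset.mem_erase] at h1
    rcases Finset.mem_insert.1 hv2 with h2 | h2
    · exact h1.1.1 h2
    · exact h1.2 h2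
  have hKX : ∀ k ∈ K, ∀ v ∈ k, v ∈ X := by
    intro k hk v hv
    have h1 := hK k hk hv
    rw [Finset.mem_sdiff, Finset.mem_erase] at h1
    exact h1.1.2
  have hout : ∀ k ∈ K, ∀ v ∈ k, ∀ w, w ∉ k → G.Adj v w → w ∈ insert v0 S ∨ w ∉ X := by
    intro k hk v hv w hw hadj
    by_contra hc
    push Not at hc
    refine hw (hcl k hk v hv w ?_ hadj)
    rw [Finset.mem_sdiff, Finset.mem_erase]
    refine ⟨⟨fun h => hc.1 (Finset.mem_insert.2 (Or.inl h)), hc.2⟩, fun h => hc.1 (Finset.mem_insert.2 (Or.inr h))⟩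
  have hone : ∀ k ∈ K, ∀ l ∈ K, ∀ v, v ∈ k → v ∈ l → k = l := by
    intro k hk l hl v hvk hvl
    by_contra hc
    exact Finset.disjoint_left.1 (hdis k hk l hl hc) hvk hvl
  rw [Cnt_out, Cnt_out, Cnt_deg, Cnt_cuts, ← Finset.sum_add_distrib, ← Finset.sum_add_distrib]
  refine Finset.sum_le_sum fun e _ => ?_
  -- the key step for `k` with the end `a` in `k` and the end `b` not in `k`
  have key : ∀ k ∈ K, ∀ a b, a ∈ k → b ∉ k → ((G.fst e = a ∧ G.snd e = b) ∨ (G.fst e = b ∧ G.snd e = a)) →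
      (K.filter (fun l => e ∈ G.cut l)).card ≤ 1 ∧
      ((b ∈ insert v0 S ∧ e ∉ G.cut X ∧ a ∉ insert v0 S) ∨
        (b ∉ X ∧ e ∈ G.cut X ∧ a ∈ K.biUnion id ∧ a ∉ insert v0 S ∧ b ∉ insert v0 S)) := by
    intro k hk a b ha hb he
    have hadj : G.Adj a b := by
      rcases he with he | he
      · exact ⟨e, Or.inl he⟩
      · exact ⟨e, Or.inr he⟩
    have hab := hout k hk a ha b hb hadj
    have hbT : ∀ l ∈ K, b ∉ l := by
      intro l hl hbl
      rcases hab with h | h
      · exact hKS l hl b hbl h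
      · exact h (hKX l hl b hbl)
    constructor
    · rw [Finset.card_le_one]
      intro l hl l' hl'
      rw [Finset.mem_filter] at hl hl'
      have h3 : ∀ l ∈ K, e ∈ G.cut l → l = k := by
        intro l hl hel
        refine hone l hl k hk a ?_ ha
        rcases (Cnt_mem G l e).1 hel with ⟨h4, h5⟩ | ⟨h4, h5⟩
        · rcases he with ⟨h6, h7⟩ | ⟨h6, h7⟩
          · rwa [h6] at h4
          · rw [h6] at h4
            exact absurd h4 (hbT l hl)
        · rcases he with ⟨h6, h7⟩ | ⟨h6, h7⟩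
          · rw [h7] at h5
            exact absurd h5 (hbT l hl)
          · rwa [h7] at h5
      rw [h3 l hl.1 hl.2, h3 l' hl'.1 hl'.2]
    · have haX : a ∈ X := hKX k hk a ha
      rcases hab with h | h
      · refine Or.inl ⟨h, ?_, hKS k hk a ha⟩
        have hbX := hSX b h
        intro hc
        rcases (Cnt_mem G X e).1 hc with ⟨h4, h5⟩ | ⟨h4, h5⟩
        · rcases he with ⟨h6, h7⟩ | ⟨h6, h7⟩
          · rw [h7] at h5; exact h5 hbX
          · rw [h7] at h5; exact h5 haX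
        · rcases he with ⟨h6, h7⟩ | ⟨h6, h7⟩
          · rw [h6] at h4; exact h4 haX
          · rw [h6] at h4; exact h4 hbX
      · refine Or.inr ⟨h, ?_, Finset.mem_biUnion.2 ⟨k, hk, ha⟩, hKS k hk a ha, fun h2 => h (hSX b h2)⟩
        rw [Cnt_mem]
        rcases he with ⟨h6, h7⟩ | ⟨h6, h7⟩
        · rw [h6, h7]; exact Or.inl ⟨haX, h⟩
        · rw [h6, h7]; exact Or.inr ⟨h, haX⟩
  by_cases hK0 : (K.filter (fun l => e ∈ G.cut l)) = ∅
  · rw [hK0, Finset.card_empty, zero_add]
    refine le_trans ?_ (Nat.le_add_right _ _)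
    by_cases h : e ∈ G.cut X
    · rw [if_pos h]
    · rw [if_neg h]
      exact Nat.zero_le _
  · obtain ⟨k, hk⟩ := Finset.nonempty_iff_ne_empty.2 hK0
    rw [Finset.mem_filter] at hk
    rcases (Cnt_mem G k e).1 hk.2 with ⟨h4, h5⟩ | ⟨h4, h5⟩
    · obtain ⟨h6, h7⟩ := key k hk.1 _ _ h4 h5 (Or.inl ⟨rfl, rfl⟩)
      rcases h7 with ⟨h7, h8, h9⟩ | ⟨_, h8, h9, h10, h11⟩
      · rw [if_neg h8, if_neg h8, if_pos h7, if_neg h9]
        omega
      · rw [if_pos h8, if_pos h8, if_neg h10, if_neg h11, if_pos h9]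
        omega
    · obtain ⟨h6, h7⟩ := key k hk.1 _ _ h5 h4 (Or.inr ⟨rfl, rfl⟩)
      rcases h7 with ⟨h7, h8, h9⟩ | ⟨_, h8, h9, h10, h11⟩
      · rw [if_neg h8, if_neg h8, if_pos h7, if_neg h9]
        omega
      · rw [if_pos h8, if_pos h8, if_neg h10, if_neg h11, if_pos h9]
        omega

theorem count {V E : Type} [Fintype E] (G : MG V E) (r : ℕ)
    (hdeg : ∀ v, G.deg v ≤ r) (X : Finset V) (v0 : V) (hv0 : v0 ∈ X) (S : Finset V)
    (hS : S ⊆ X.erase v0) (K : Finset (Finset V)) (hK : ∀ k ∈ K, k ⊆ (X.erase v0) \ S)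
    (hdis : ∀ k ∈ K, ∀ l ∈ K, k ≠ l → Disjoint k l)
    (hcl : ∀ k ∈ K, ∀ v ∈ k, ∀ w ∈ (X.erase v0) \ S, G.Adj v w → w ∈ k) :
    ∑ k ∈ K, (G.cut k).card + 2 * ∑ s ∈ insert v0 S, G.out X s +
      ∑ v ∈ ((X.erase v0) \ S) \ K.biUnion id, G.out X v ≤ r * (S.card + 1) + (G.cut X).card := by
  have h1 := Cnt_main G X v0 hv0 S hS K hK hdis hcl
  have hv0S : v0 ∉ S := fun h => Finset.notMem_erase v0 X (hS h)
  have h2 : ∑ s ∈ insert v0 S, G.deg s ≤ r * (S.card + 1) := by
    refine (Finset.sum_le_card_nsmul _ _ r fun s _ => hdeg s).trans ?_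
    rw [Finset.card_insert_of_notMem hv0S, smul_eq_mul, mul_comm]
  have h3 := sum_out G X
  have hT : K.biUnion id ⊆ (X.erase v0) \ S := by
    intro v hv
    obtain ⟨k, hk, hvk⟩ := Finset.mem_biUnion.1 hv
    exact hK k hk hvk
  have h4 : ∑ v ∈ ((X.erase v0) \ S) \ K.biUnion id, G.out X v + ∑ v ∈ K.biUnion id, G.out X v =
      ∑ v ∈ (X.erase v0) \ S, G.out X v := Finset.sum_sdiff hT
  have hS2 : insert v0 S ⊆ X := by
    intro v hv
    rcases Finset.mem_insert.1 hv with rfl | hv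
    · exact hv0
    · exact Finset.mem_of_mem_erase (hS hv)
  have h5 : ∑ v ∈ X \ insert v0 S, G.out X v + ∑ v ∈ insert v0 S, G.out X v = ∑ v ∈ X, G.out X v :=
    Finset.sum_sdiff hS2
  have h6 : X \ insert v0 S = (X.erase v0) \ S := by
    ext v
    simp only [Finset.mem_sdiff, Finset.mem_insert, Finset.mem_erase]
    tauto
  rw [h6] at h5
  omega

end Pool.Agent.JKS
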