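import Pool.Agent.JKS.Defs
/-! Par (1): in a 5-regular graph |cut X| = 5 |X| - 2 (number of edges inside X), so it is odd if |X| is. -/
namespace Pool.Agent.JKS
open Finset
open scoped Classical

theorem Par_inc {V E : Type} (G : MG V E) (e : E) (X : Finset V) :
    ∑ v ∈ X, (if G.Inc e v then 1 else 0) = (if G.fst e ∈ X then 1 else 0) + (if G.snd e ∈ X then 1 else 0) := by
  have h : ∀ v ∈ X, (if G.Inc e v then 1 else 0) = (if G.fst e = v then 1 else 0) + (if G.snd e = v then 1 else 0) := by
    intro v _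
    have hne := G.ne e
    unfold MG.Inc
    by_cases h1 : G.fst e = v
    · have h2 : G.snd e ≠ v := fun h2 => hne (h1.trans h2.symm)
      simp [h1, h2]
    · by_cases h2 : G.snd e = v
      · simp [h1, h2]
      · simp [h1, h2]
  rw [Finset.sum_congr rfl h, Finset.sum_add_distrib, Finset.sum_ite_eq, Finset.sum_ite_eq]

theorem Par_sum {V E : Type} [Fintype E] (G : MG V E) (X : Finset V) :
    ∑ v ∈ X, G.deg v = (G.cut X).card + 2 * (Finset.univ.filter (fun e => G.fst e ∈ X ∧ G.snd e ∈ X)).card := by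
  have h1 : ∑ v ∈ X, G.deg v = ∑ e : E, ∑ v ∈ X, (if G.Inc e v then 1 else 0) := by
    rw [Finset.sum_comm]
    refine Finset.sum_congr rfl fun v _ => ?_
    unfold MG.deg
    rw [Finset.card_filter]
  rw [h1]
  unfold MG.cut
  rw [Finset.card_filter, Finset.card_filter, Finset.mul_sum, ← Finset.sum_add_distrib]
  refine Finset.sum_congr rfl fun e _ => ?_
  rw [Par_inc]
  by_cases h2 : G.fst e ∈ X
  · by_cases h3 : G.snd e ∈ X
    · simp [h2, h3]
    · simp [h2, h3]
  · by_cases h3 : G.snd e ∈ X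
    · simp [h2, h3]
    · simp [h2, h3]

theorem cut_parity {V E : Type} [Fintype E] (G : MG V E) (h5 : ∀ v, G.deg v = 5) (X : Finset V)
    (hX : Odd X.card) : Odd (G.cut X).card := by
  have h1 := Par_sum G X
  rw [Finset.sum_congr rfl fun v _ => h5 v, Finset.sum_const, smul_eq_mul] at h1
  obtain ⟨k, hk⟩ := hX
  rw [Nat.odd_iff]
  omega

theorem odd_cut_five {V E : Type} [Fintype V] [Fintype E] (G : MG V E) (h5 : ∀ v, G.deg v = 5)
    (h4 : ∀ X : Finset V, X.Nonempty → X ≠ Finset.univ → 4 ≤ (G.cut X).card) (X : Finset V)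
    (hX : Odd X.card) : 5 ≤ (G.cut X).card := by
  have h1 := cut_parity G h5 X hX
  have hne : X.Nonempty := by
    rw [← Finset.card_pos]
    exact hX.pos
  by_cases hu : X = Finset.univ
  · have h2 : G.cut X = ∅ := by
      rw [hu]
      unfold MG.cut
      simp
    rw [h2, Finset.card_empty] at h1
    exact absurd h1 (by decide)
  · have h2 := h4 X hne hu
    obtain ⟨k, hk⟩ := h1
    omega

end Pool.Agent.JKS
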