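import Pool.Agent.JKS.Main
import Pool.Agent.JKS.Par
/-! Cor: corollaries for matchings missing exactly two vertices. -/
namespace Pool.Agent.JKS
open Finset
open scoped Classical

variable {V E : Type}

/-- the edge `e` lies in a cycle of length 2 (it has a parallel edge) or 3 (it lies in a triangle) -/
def MG.Short (G : MG V E) (e : E) : Prop :=
  (∃ f, f ≠ e ∧ G.Inc f (G.fst e) ∧ G.Inc f (G.snd e)) ∨
  (∃ z, G.Adj (G.fst e) z ∧ G.Adj (G.snd e) z)

theorem mem_cut [Fintype E] (G : MG V E) (X : Finset V) (e : E) :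
    e ∈ G.cut X ↔ (G.fst e ∈ X ∧ G.snd e ∉ X) ∨ (G.fst e ∉ X ∧ G.snd e ∈ X) := by
  simp [MG.cut]

theorem cut_compl [Fintype V] [Fintype E] (G : MG V E) (X : Finset V) :
    G.cut (Finset.univ \ X) = G.cut X := by
  ext e; simp only [mem_cut, mem_sdiff, mem_univ, true_and, not_not]; tauto

/-- a cut contained in a matching-like set M contains no short edge -/
theorem short_not_mem [Fintype E] (G : MG V E) (M : Finset E) (hM : G.IsPM M) (X : Finset V)
    (hX : ∀ e ∈ G.cut X, e ∈ M) (e : E) (he : e ∈ G.cut X) (hs : G.Short e) : False := by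
  have hinj : ∀ v f g, f ∈ M → g ∈ M → G.Inc f v → G.Inc g v → f = g := by
    intro v f g hf hg hfv hgv
    exact (hM v).unique ⟨hf, hfv⟩ ⟨hg, hgv⟩
  rcases hs with ⟨f, hfe, h1, h2⟩ | ⟨z, ⟨g, hg⟩, ⟨h, hh⟩⟩
  · have hne := G.ne e
    have hf : f ∈ G.cut X := by
      rw [mem_cut] at he ⊢
      rcases h1 with h1 | h1 <;> rcases h2 with h2 | h2
      · exact absurd (h1.symm.trans h2) hne
      · rw [h1, h2]; exact he
      · rw [h1, h2]; tauto
      · exact absurd (h1.symm.trans h2) hne
    exact hfe (hinj _ _ _ (hX f hf) (hX e he) h1 (Or.inl rfl))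
  · have hzs : z ≠ G.snd e := by
      rintro rfl
      rcases hh with ⟨a, b⟩ | ⟨a, b⟩
      · exact G.ne h (a.trans b.symm)
      · exact G.ne h (a.trans b.symm)
    have hzf : z ≠ G.fst e := by
      rintro rfl
      rcases hg with ⟨a, b⟩ | ⟨a, b⟩
      · exact G.ne g (a.trans b.symm)
      · exact G.ne g (a.trans b.symm)
    by_cases hz : (z ∈ X ↔ G.fst e ∈ X)
    · -- then h is in the cut
      have hhc : h ∈ G.cut X := by
        rw [mem_cut] at he ⊢
        rcases hh with ⟨a, b⟩ | ⟨a, b⟩ <;> rw [a, b] <;> tauto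
      have hinc : G.Inc h (G.snd e) := by
        rcases hh with ⟨a, b⟩ | ⟨a, b⟩
        · exact Or.inl a
        · exact Or.inr b
      have heq : h = e := hinj _ _ _ (hX h hhc) (hX e he) hinc (Or.inr rfl)
      subst heq
      rcases hh with ⟨a, b⟩ | ⟨a, b⟩
      · exact G.ne h a
      · exact hzf a.symm
    · have hgc : g ∈ G.cut X := by
        rw [mem_cut] at he ⊢
        rcases hg with ⟨a, b⟩ | ⟨a, b⟩ <;> rw [a, b] <;> tauto
      have hinc : G.Inc g (G.fst e) := by
        rcases hg with ⟨a, b⟩ | ⟨a, b⟩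
        · exact Or.inl a
        · exact Or.inr b
      have heq : g = e := hinj _ _ _ (hX g hgc) (hX e he) hinc (Or.inl rfl)
      subst heq
      rcases hg with ⟨a, b⟩ | ⟨a, b⟩
      · exact hzs b.symm
      · exact G.ne g b.symm

/-- if N does not meet the cut of X, then the covered vertices of X are even in number -/
theorem even_covered [Fintype E] (G : MG V E) (N : Finset E) (hN : G.IsMatching N)
    (X : Finset V) (hX : ∀ e ∈ G.cut X, e ∉ N) : Even (X.filter (fun v => G.Cov N v)).card := by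
  obtain ⟨ν, h1, h2, h3, h4⟩ := exists_partner G N hN
  refine even_of_invol _ ν ?_
  intro v hv
  rw [mem_filter] at hv
  obtain ⟨hvne, e, heN, hev, hev'⟩ := h3 v hv.2
  refine ⟨?_, h1 v, hvne⟩
  rw [mem_filter]
  refine ⟨?_, e, heN, hev'⟩
  by_contra hn
  apply hX e _ heN
  rw [mem_cut]
  rcases hev with a | a <;> rcases hev' with b | b
  · exact absurd (b.symm.trans a) hvne
  · rw [a, b]; exact Or.inl ⟨hv.1, hn⟩
  · rw [a, b]; exact Or.inr ⟨hn, hv.1⟩
  · exact absurd (b.symm.trans a) hvne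

theorem off_N [Fintype V] [Fintype E] (G : MG V E) (r : ℕ) (hr : 2 ≤ r)
    (hdeg : ∀ v, G.deg v = r) (hodd : ∀ X : Finset V, Odd X.card → r ≤ (G.cut X).card)
    (N : Finset E) (hN : G.IsMatching N) (s t : V) (hst : s ≠ t)
    (hcov : ∀ v, G.Cov N v ↔ v ≠ s ∧ v ≠ t) (e0 : E) (he : G.Inc e0 t) :
    ∃ M : Finset E, G.IsPM M ∧ e0 ∈ M ∧
      ∀ X : Finset V, Odd X.card → (∀ e ∈ G.cut X, e ∈ M) → ∃ e ∈ G.cut X, e ∈ N := by
  have htN : ¬ G.Cov N t := by rw [hcov]; simp
  obtain ⟨M, hM, heM, hA⟩ := anchored G r hr hdeg hodd N hN t htN e0 he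
  refine ⟨M, hM, heM, fun X hX hc => ?_⟩
  by_contra hno
  push Not at hno
  have hev := even_covered G N hN X hno
  have hcases : ∀ u, u ≠ t → ¬ G.Cov N u → u = s := by
    intro u hut hu
    rw [hcov] at hu
    by_contra h
    exact hu ⟨h, hut⟩
  have hsplit : X.card = (X.filter (fun v => G.Cov N v)).card + (X.filter (fun v => ¬ G.Cov N v)).card := by
    rw [Finset.card_filter_add_card_filter_not]
  by_cases ht : t ∈ X
  · obtain ⟨u, huX, hut, hu⟩ := hA X ht (fun e hec => ⟨hc e hec, hno e hec⟩)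
    obtain rfl := hcases u hut hu
    have : X.filter (fun v => ¬ G.Cov N v) = {u, t} := by
      ext v
      simp only [mem_filter, mem_insert, mem_singleton]
      constructor
      · rintro ⟨_, hv⟩
        by_cases hvt : v = t
        · exact Or.inr hvt
        · exact Or.inl (hcases v hvt hv)
      · rintro (rfl | rfl)
        · exact ⟨huX, hu⟩
        · exact ⟨ht, htN⟩
    rw [this, Finset.card_pair hut] at hsplit
    rw [hsplit] at hX
    exact (Nat.not_odd_iff_even.mpr (hev.add (by decide))) hX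
  · obtain ⟨u, huX, hut, hu⟩ := hA (Finset.univ \ X) (by simp [ht])
      (fun e hec => by rw [cut_compl] at hec; exact ⟨hc e hec, hno e hec⟩)
    obtain rfl := hcases u hut hu
    have : X.filter (fun v => ¬ G.Cov N v) = ∅ := by
      ext v
      simp only [mem_filter, notMem_empty, iff_false, not_and, not_not]
      intro hv
      rw [hcov]
      refine ⟨?_, ?_⟩
      · rintro rfl; simp [hv] at huX
      · rintro rfl; exact ht hv
    rw [this, Finset.card_empty, add_zero] at hsplit
    rw [hsplit] at hX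
    exact (Nat.not_odd_iff_even.mpr hev) hX

end Pool.Agent.JKS
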