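import Mathlib
/-! JKS (MP_ace318_co): multigraphs, cuts, perfect matchings. -/
namespace Pool.Agent.JKS
open Finset
open scoped Classical

/-- a multigraph (parallel edges allowed, no loops) with vertex type `V` and edge type `E` -/
structure MG (V E : Type) where
  fst : E → V
  snd : E → V
  ne : ∀ e, fst e ≠ snd e

variable {V E : Type}

/-- the vertex `v` is an end of the edge `e` -/
def MG.Inc (G : MG V E) (e : E) (v : V) : Prop := G.fst e = v ∨ G.snd e = v

/-- `v` and `w` are joined by an edge -/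
def MG.Adj (G : MG V E) (v w : V) : Prop :=
  ∃ e, (G.fst e = v ∧ G.snd e = w) ∨ (G.fst e = w ∧ G.snd e = v)

/-- the edge cut `δ(X)`: the edges with exactly one end in `X` -/
noncomputable def MG.cut (G : MG V E) [Fintype E] (X : Finset V) : Finset E :=
  Finset.univ.filter (fun e => (G.fst e ∈ X ∧ G.snd e ∉ X) ∨ (G.fst e ∉ X ∧ G.snd e ∈ X))

/-- the degree of a vertex -/
noncomputable def MG.deg (G : MG V E) [Fintype E] (v : V) : ℕ :=
  (Finset.univ.filter (fun e => G.Inc e v)).card

/-- perfect matchings (as sets of edges) -/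
def MG.IsPM (G : MG V E) (M : Finset E) : Prop := ∀ v, ∃! e, e ∈ M ∧ G.Inc e v

/-- matchings (as sets of edges) -/
def MG.IsMatching (G : MG V E) (N : Finset E) : Prop :=
  ∀ v, ∀ e ∈ N, ∀ f ∈ N, G.Inc e v → G.Inc f v → e = f

/-- the vertex `v` is covered by `N` -/
def MG.Cov (G : MG V E) (N : Finset E) (v : V) : Prop := ∃ e ∈ N, G.Inc e v

/-- `Y` has a perfect matching in the graph induced on `Y` (vertex form) -/
def MG.Feas (G : MG V E) (Y : Finset V) : Prop :=
  ∃ σ : V → V, ∀ v ∈ Y, σ v ∈ Y ∧ σ (σ v) = v ∧ G.Adj v (σ v)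

/-- number of edges of the cut of `X` at the vertex `v` -/
noncomputable def MG.out (G : MG V E) [Fintype E] (X : Finset V) (v : V) : ℕ :=
  ((G.cut X).filter (fun e => G.Inc e v)).card

end Pool.Agent.JKS
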