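import Pool.Agent.JKS.Defs
/-! EdgeOf (1-2): from a perfect matching of `Y` in vertex form to a set of edges.

PROOF.  Let σ be the involution.  For v ∈ Y choose (Classical) an edge joining v and σ v as a function
f of the unordered pair s(v, σ v) : Sym2 V (f s(a,b) := an edge with ends a, b if there is one), so
f s(v, σ v) = f s(σ v, σ (σ v)).  M := Y.image (fun v => f s(v, σ v)).  An edge f s(w, σ w) of M incident
with v ∈ Y has {v} ⊆ {w, σ w}, so v = w or v = σ w, in both cases the edge is f s(v, σ v).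

`exists_partner`: for a perfect matching M (edges), the partner function: p v = the other end of the
unique edge of M at v. -/
namespace Pool.Agent.JKS
open Finset
open scoped Classical

theorem edges_of_feas {V E : Type} (G : MG V E) (Y : Finset V) (h : G.Feas Y) :
    ∃ M : Finset E, (∀ e ∈ M, G.fst e ∈ Y ∧ G.snd e ∈ Y) ∧ ∀ v ∈ Y, ∃! e, e ∈ M ∧ G.Inc e v := by
  obtain ⟨σ, hσ⟩ := h
  rcases Y.eq_empty_or_nonempty with hY | ⟨v₀, hv₀⟩
  · exact ⟨∅, by simp, by simp [hY]⟩
  have hE : Nonempty E := by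
    obtain ⟨_, _, e, _⟩ := hσ v₀ hv₀
    exact ⟨e⟩
  let f : Sym2 V → E := fun p =>
    if h : ∃ e, s(G.fst e, G.snd e) = p then h.choose else Classical.arbitrary E
  have hf : ∀ v ∈ Y, s(G.fst (f s(v, σ v)), G.snd (f s(v, σ v))) = s(v, σ v) := by
    intro v hv
    obtain ⟨_, _, e, he⟩ := hσ v hv
    have hex : ∃ e, s(G.fst e, G.snd e) = s(v, σ v) := by
      refine ⟨e, ?_⟩
      rcases he with ⟨h1, h2⟩ | ⟨h1, h2⟩
      · rw [h1, h2]
      · rw [h1, h2, Sym2.eq_swap]
    have : f s(v, σ v) = hex.choose := by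
      simp only [f]
      rw [dif_pos hex]
    rw [this]
    exact hex.choose_spec
  have hinc : ∀ v ∈ Y, ∀ w, G.Inc (f s(v, σ v)) w ↔ (w = v ∨ w = σ v) := by
    intro v hv w
    have h1 := hf v hv
    have h2 : w ∈ s(G.fst (f s(v, σ v)), G.snd (f s(v, σ v))) ↔ w ∈ s(v, σ v) := by rw [h1]
    rw [Sym2.mem_iff, Sym2.mem_iff] at h2
    rw [← h2]
    unfold MG.Inc
    constructor
    · rintro (h | h)
      · exact Or.inl h.symm
      · exact Or.inr h.symm
    · rintro (h | h)
      · exact Or.inl h.symm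
      · exact Or.inr h.symm
  refine ⟨Y.image (fun v => f s(v, σ v)), ?_, ?_⟩
  · intro e he
    obtain ⟨v, hv, rfl⟩ := Finset.mem_image.1 he
    have ha := (hinc v hv (G.fst (f s(v, σ v)))).1 (Or.inl rfl)
    have hb := (hinc v hv (G.snd (f s(v, σ v)))).1 (Or.inr rfl)
    constructor
    · rcases ha with ha | ha
      · rw [ha]; exact hv
      · rw [ha]; exact (hσ v hv).1
    · rcases hb with hb | hb
      · rw [hb]; exact hv
      · rw [hb]; exact (hσ v hv).1
  · intro v hv
    refine ⟨f s(v, σ v), ⟨Finset.mem_image.2 ⟨v, hv, rfl⟩, (hinc v hv v).2 (Or.inl rfl)⟩, ?_⟩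
    rintro e ⟨he, hev⟩
    obtain ⟨w, hw, rfl⟩ := Finset.mem_image.1 he
    rcases (hinc w hw v).1 hev with h | h
    · subst h; rfl
    · subst h
      show f s(w, σ w) = f s(σ w, σ (σ w))
      rw [(hσ w hw).2.1, Sym2.eq_swap]

/-- partner function of a matching: defined on the covered vertices, identity elsewhere -/
theorem exists_partner {V E : Type} (G : MG V E) (N : Finset E) (hN : G.IsMatching N) :
    ∃ ν : V → V, (∀ v, ν (ν v) = v) ∧ (∀ v, ¬ G.Cov N v → ν v = v) ∧
      (∀ v, G.Cov N v → ν v ≠ v ∧ ∃ e ∈ N, G.Inc e v ∧ G.Inc e (ν v)) ∧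
      (∀ e ∈ N, ∀ v, G.Inc e v → G.Inc e (ν v)) := by
  let oth : E → V → V := fun e v => if G.fst e = v then G.snd e else G.fst e
  have o1 : ∀ e v, G.Inc e v → oth e v ≠ v := by
    intro e v h
    simp only [oth]
    split_ifs with h1
    · rw [← h1]; exact (G.ne e).symm
    · exact h1
  have o2 : ∀ e v, G.Inc e v → G.Inc e (oth e v) := by
    intro e v h
    simp only [oth]
    split_ifs with h1
    · exact Or.inr rfl
    · exact Or.inl rfl
  have o3 : ∀ e v, G.Inc e v → oth e (oth e v) = v := by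
    intro e v h
    simp only [oth]
    by_cases h1 : G.fst e = v
    · rw [if_pos h1, if_neg (by rw [← h1] at *; exact (G.ne e))]
      exact h1
    · rw [if_neg h1, if_pos rfl]
      rcases h with h | h
      · exact absurd h h1
      · exact h
  let ν : V → V := fun v => if h : ∃ e ∈ N, G.Inc e v then oth h.choose v else v
  have hν : ∀ e ∈ N, ∀ v, G.Inc e v → ν v = oth e v := by
    intro e he v hv
    have hex : ∃ e ∈ N, G.Inc e v := ⟨e, he, hv⟩
    have h1 : ν v = oth hex.choose v := by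
      simp only [ν]
      rw [dif_pos hex]
    have h2 : hex.choose = e := hN v _ hex.choose_spec.1 e he hex.choose_spec.2 hv
    rw [h1, h2]
  have hν' : ∀ v, ¬ G.Cov N v → ν v = v := by
    intro v hv
    exact dif_neg hv
  refine ⟨ν, ?_, hν', ?_, ?_⟩
  · intro v
    by_cases hv : G.Cov N v
    · obtain ⟨e, he, hev⟩ := hv
      rw [hν e he v hev, hν e he _ (o2 e v hev)]
      exact o3 e v hev
    · rw [hν' v hv, hν' v hv]
  · rintro v ⟨e, he, hev⟩
    rw [hν e he v hev]
    exact ⟨o1 e v hev, e, he, hev, o2 e v hev⟩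
  · intro e he v hev
    rw [hν e he v hev]
    exact o2 e v hev

end Pool.Agent.JKS
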