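import Mathlib
/-! Exit (1-2): exits of odd sets.  `μ` is an involution of `Y` without fixed points; `p, q = μ p`
are two points; an element v of some k ∈ K whose partner is neither in k nor in S is p or q.

PROOF.  k ∈ K is odd, so μ does not map k into itself (a fixed point free involution of k would make
|k| even, e.g. `Finset.card_involution`/`Finset.even_card_of_involution`-type lemma or
`Finset.sum_involution` in ZMod 2): choose x k ∈ k with μ (x k) ∉ k.  Then μ (x k) ∈ S ∪ {p, q} (if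
μ (x k) ∉ S then x k ∈ {p, q}, so μ (x k) ∈ {q, p}, as μ p = q and μ q = p).  The x k are distinct (the k
are disjoint), μ is injective on Y, so k ↦ μ (x k) is injective K → S ∪ {p, q}, hence
|S| + 2 ≤ |K| ≤ |S ∪ {p, q}| ≤ |S| + 2: equality everywhere, p ≠ q are not in S and the map is onto:
every s ∈ S is μ (x k), i.e. x k = μ s; p = μ (x k) gives x k = q; q = μ (x k) gives x k = p.  If v ∈ k,
v ≠ x k and μ v ∉ k, then μ v ∈ S ∪ {p, q} by the same argument, so μ v = μ (x l) for some l ∈ K, so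
v = x l ∈ l ∩ k, so l = k and v = x k: contradiction. -/
namespace Pool.Agent.JKS
open Finset
open scoped Classical

/-- a fixed point free involution of `Y` forces `Y` to be even -/
theorem even_of_invol {V : Type} (Y : Finset V) (μ : V → V)
    (hμ : ∀ v ∈ Y, μ v ∈ Y ∧ μ (μ v) = v ∧ μ v ≠ v) : Even Y.card := by
  classical
  have h := Finset.sum_involution (s := Y) (f := fun _ => (1 : ZMod 2)) (fun v _ => μ v)
    (fun v hv => by decide) (fun v hv _ => (hμ v hv).2.2) (fun v hv => (hμ v hv).1)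
    (fun v hv => (hμ v hv).2.1)
  rw [Finset.sum_const, nsmul_eq_mul, mul_one] at h
  exact (ZMod.natCast_eq_zero_iff_even).1 h

theorem exits {V : Type} (Y S : Finset V) (μ : V → V)
    (hμ : ∀ v ∈ Y, μ v ∈ Y ∧ μ (μ v) = v ∧ μ v ≠ v) (p q : V) (hp : p ∈ Y) (hq : q ∈ Y)
    (hpq : μ p = q) (K : Finset (Finset V)) (hK : ∀ k ∈ K, k ⊆ Y \ S ∧ Odd k.card)
    (hdis : ∀ k ∈ K, ∀ l ∈ K, k ≠ l → Disjoint k l)
    (hcl : ∀ k ∈ K, ∀ v ∈ k, μ v ∉ S → μ v ∉ k → v = p ∨ v = q)
    (hcard : S.card + 2 ≤ K.card) :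
    K.card = S.card + 2 ∧ p ∉ S ∧ q ∉ S ∧
    ∃ x : Finset V → V, (∀ k ∈ K, x k ∈ k ∧ μ (x k) ∉ k ∧ (∀ v ∈ k, v ≠ x k → μ v ∈ k)) ∧
      (∀ s ∈ S, s ∈ Y → ∃ k ∈ K, x k = μ s) ∧ (∃ k ∈ K, x k = p) ∧ (∃ k ∈ K, x k = q) ∧
      (∀ k ∈ K, μ (x k) ∈ S ∨ x k = p ∨ x k = q) := by
  -- the exit of an odd set
  have hex : ∀ k ∈ K, ∃ v ∈ k, μ v ∉ k := by
    intro k hk
    by_contra hcon
    push Not at hcon
    have h1 : Even k.card := even_of_invol k μ (fun v hv =>
      ⟨hcon v hv, (hμ v (mem_sdiff.1 ((hK k hk).1 hv)).1).2⟩)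
    exact (Nat.not_even_iff_odd.2 (hK k hk).2) h1
  have hqp : μ q = p := by rw [← hpq]; exact (hμ p hp).2.1
  -- the target of an exit
  have htar : ∀ k ∈ K, ∀ v ∈ k, μ v ∉ k → μ v ∈ S ∪ {p, q} := by
    intro k hk v hv hvk
    rw [mem_union, mem_insert, mem_singleton]
    by_cases h1 : μ v ∈ S
    · exact Or.inl h1
    · rcases hcl k hk v hv h1 hvk with h | h
      · right; right; rw [h, hpq]
      · right; left; rw [h, hqp]
  have hkY : ∀ k ∈ K, ∀ v ∈ k, v ∈ Y := fun k hk v hv => (mem_sdiff.1 ((hK k hk).1 hv)).1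
  have hinjY : ∀ v ∈ Y, ∀ w ∈ Y, μ v = μ w → v = w := by
    intro v hv w hw h
    rw [← (hμ v hv).2.1, h, (hμ w hw).2.1]
  have hsame : ∀ k ∈ K, ∀ l ∈ K, ∀ v, v ∈ k → v ∈ l → k = l := by
    intro k hk l hl v h1 h2
    by_contra hne
    exact (Finset.disjoint_left.1 (hdis k hk l hl hne)) h1 h2
  obtain ⟨x, hx⟩ : ∃ x : Finset V → V, ∀ k ∈ K, x k ∈ k ∧ μ (x k) ∉ k := by
    refine ⟨fun k => if h : k ∈ K then (hex k h).choose else p, ?_⟩
    intro k hk
    have e : (fun k => if h : k ∈ K then (hex k h).choose else p) k = (hex k hk).choose :=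
      dif_pos hk
    rw [e]
    exact (hex k hk).choose_spec
  have hmaps : ∀ k ∈ K, μ (x k) ∈ S ∪ {p, q} := fun k hk => htar k hk _ (hx k hk).1 (hx k hk).2
  have hinj : ∀ k ∈ K, ∀ l ∈ K, μ (x k) = μ (x l) → k = l := by
    intro k hk l hl h
    have h1 := hinjY _ (hkY k hk _ (hx k hk).1) _ (hkY l hl _ (hx l hl).1) h
    exact hsame k hk l hl (x k) (hx k hk).1 (h1 ▸ (hx l hl).1)
  have hle : K.card ≤ (S ∪ {p, q}).card :=
    Finset.card_le_card_of_injOn (fun k => μ (x k)) (fun k hk => hmaps k hk)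
      (fun k hk l hl h => hinj k hk l hl h)
  have hle2 : (S ∪ {p, q}).card ≤ S.card + 2 :=
    (card_union_le _ _).trans (Nat.add_le_add_left card_le_two _)
  have hKc : K.card = S.card + 2 := by omega
  have hUc : (S ∪ {p, q}).card = S.card + 2 := by omega
  have hpqne : p ≠ q := by rw [← hpq]; exact fun h => (hμ p hp).2.2 h.symm
  have hdisj : Disjoint S {p, q} := by
    have h1 : ({p, q} : Finset V).card = 2 := card_pair hpqne
    have h2 := card_union_add_card_inter S ({p, q} : Finset V)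
    rw [disjoint_iff_inter_eq_empty, ← card_eq_zero]
    omega
  have hpS : p ∉ S := fun h => (disjoint_left.1 hdisj h) (by simp)
  have hqS : q ∉ S := fun h => (disjoint_left.1 hdisj h) (by simp)
  have hsurj : ∀ w ∈ S ∪ {p, q}, ∃ k ∈ K, μ (x k) = w := by
    have h1 : K.image (fun k => μ (x k)) = S ∪ {p, q} := by
      apply eq_of_subset_of_card_le
      · intro w hw
        rw [mem_image] at hw
        obtain ⟨k, hk, rfl⟩ := hw
        exact hmaps k hk
      · rw [card_image_of_injOn (fun k hk l hl h => hinj k hk l hl h)]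
        omega
    intro w hw
    rw [← h1, mem_image] at hw
    exact hw
  refine ⟨hKc, hpS, hqS, x, ?_, ?_, ?_, ?_, ?_⟩
  · intro k hk
    refine ⟨(hx k hk).1, (hx k hk).2, ?_⟩
    intro v hv hne
    by_contra hcon
    obtain ⟨l, hl, hlv⟩ := hsurj _ (htar k hk v hv hcon)
    have h1 := hinjY _ (hkY l hl _ (hx l hl).1) _ (hkY k hk v hv) hlv
    have h2 : l = k := hsame l hl k hk v (h1 ▸ (hx l hl).1) hv
    rw [h2] at h1
    exact hne h1.symm
  · intro s hs hsY
    obtain ⟨k, hk, h1⟩ := hsurj s (mem_union_left _ hs)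
    refine ⟨k, hk, ?_⟩
    rw [← h1, (hμ _ (hkY k hk _ (hx k hk).1)).2.1]
  · obtain ⟨k, hk, h1⟩ := hsurj q (mem_union_right _ (by simp))
    refine ⟨k, hk, ?_⟩
    apply hinjY _ (hkY k hk _ (hx k hk).1) _ hp
    rw [h1, hpq]
  · obtain ⟨k, hk, h1⟩ := hsurj p (mem_union_right _ (by simp))
    refine ⟨k, hk, ?_⟩
    apply hinjY _ (hkY k hk _ (hx k hk).1) _ hq
    rw [h1, hqp]
  · intro k hk
    by_cases h1 : μ (x k) ∈ S
    · exact Or.inl h1
    · exact Or.inr (hcl k hk _ (hx k hk).1 h1 (hx k hk).2)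

end Pool.Agent.JKS
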