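import Mathlib
/-! TutB (2): Tutte's theorem (Mathlib: `SimpleGraph.tutte`, file Mathlib/Combinatorics/SimpleGraph/Tutte.lean)
for a symmetric irreflexive relation `R` on a finset `Y`, without subtypes in the statement.

PROOF.  Let `H : SimpleGraph {v // v ∈ Y}` with `H.Adj a b := R a.1 b.1`.  If `H` has a perfect
matching (`Subgraph`, `IsPerfectMatching`), let σ v be the partner (`IsPerfectMatching` gives for
each vertex a unique neighbour in the subgraph: `IsPerfectMatching` = `IsMatching ∧ IsSpanning`;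
`hM.1 (hM.2 v) : ∃! w, M.Adj v w`), σ := id outside `Y`.  Otherwise `SimpleGraph.tutte` gives a Tutte
violator `u : Set {v // v ∈ Y}`, i.e. `u.ncard < ((⊤ : H.Subgraph).deleteVerts u).coe.oddComponents.ncard`.
Let `S` be the image of `u` in `V`, and `𝒦` the set of the images in `V` of the supports of the odd
components of `((⊤ : H.Subgraph).deleteVerts u).coe`.  The components partition `Y \ S`; the rest of
`Y \ S` is the union of the even components, hence has even cardinality. -/
namespace Pool.Agent.JKS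
open Finset
open scoped Classical

theorem TutB_comp {A V : Type} [Fintype A] [Fintype V] (G : SimpleGraph A) (f : A → V)
    (hf : Function.Injective f) (R : V → V → Prop) (hR : ∀ x y, R (f x) (f y) → G.Adj x y) :
    ∃ K : Finset (Finset V), K.card = G.oddComponents.ncard ∧
      (∀ k ∈ K, k ⊆ univ.image f ∧ Odd k.card) ∧ (∀ k ∈ K, ∀ l ∈ K, k ≠ l → Disjoint k l) ∧
      (∀ k ∈ K, ∀ v ∈ k, ∀ w ∈ univ.image f, R v w → w ∈ k) ∧
      Even ((univ.image f) \ K.biUnion id).card := by
  haveI : Fintype G.ConnectedComponent := Fintype.ofFinite _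
  set kc : G.ConnectedComponent → Finset V :=
    fun c => (univ.filter fun x => G.connectedComponentMk x = c).image f with hkc
  have hmem : ∀ c v, v ∈ kc c ↔ ∃ x, G.connectedComponentMk x = c ∧ f x = v := by
    intro c v
    simp [hkc]
  have hcard : ∀ c, (kc c).card = c.supp.ncard := by
    intro c
    rw [hkc]
    simp only
    rw [card_image_of_injective _ hf, ← Set.ncard_coe_finset]
    congr 1
    ext x
    simp [SimpleGraph.ConnectedComponent.mem_supp_iff]
  have hne : ∀ c, (kc c).Nonempty := by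
    intro c
    obtain ⟨x, hx⟩ := c.exists_rep
    exact ⟨f x, (hmem c _).2 ⟨x, hx, rfl⟩⟩
  have hdis : ∀ c c', c ≠ c' → Disjoint (kc c) (kc c') := by
    intro c c' h
    rw [Finset.disjoint_left]
    intro v hv hv'
    obtain ⟨x, hx, rfl⟩ := (hmem c v).1 hv
    obtain ⟨y, hy, he⟩ := (hmem c' _).1 hv'
    rw [hf he] at hy
    exact h (hx.symm.trans hy)
  have hinj : Function.Injective kc := by
    intro c c' h
    by_contra hc
    have h1 := hdis c c' hc
    rw [← h, disjoint_self_iff_empty] at h1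
    exact (hne c).ne_empty h1
  set K : Finset (Finset V) := (univ.filter fun c : G.ConnectedComponent => Odd c.supp.ncard).image kc with hK
  have hKm : ∀ k, k ∈ K ↔ ∃ c : G.ConnectedComponent, Odd c.supp.ncard ∧ kc c = k := by
    intro k
    simp [hK]
  refine ⟨K, ?_, ?_, ?_, ?_, ?_⟩
  · rw [hK, card_image_of_injective _ hinj, ← Set.ncard_coe_finset]
    congr 1
    ext c
    simp [SimpleGraph.oddComponents]
  · intro k hk
    obtain ⟨c, hc, rfl⟩ := (hKm k).1 hk
    refine ⟨?_, by rw [hcard]; exact hc⟩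
    intro v hv
    obtain ⟨x, -, rfl⟩ := (hmem c v).1 hv
    exact mem_image_of_mem f (mem_univ x)
  · intro k hk l hl hkl
    obtain ⟨c, -, rfl⟩ := (hKm k).1 hk
    obtain ⟨c', -, rfl⟩ := (hKm l).1 hl
    exact hdis c c' fun h => hkl (by rw [h])
  · intro k hk v hv w hw hvw
    obtain ⟨c, -, rfl⟩ := (hKm k).1 hk
    obtain ⟨x, hx, rfl⟩ := (hmem c v).1 hv
    obtain ⟨y, -, rfl⟩ := mem_image.1 hw
    refine (hmem c _).2 ⟨y, ?_, rfl⟩
    rw [← hx]
    exact (SimpleGraph.ConnectedComponent.connectedComponentMk_eq_of_adj (hR x y hvw)).symm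
  · have e : (univ.image f) \ K.biUnion id =
        (univ.filter fun c : G.ConnectedComponent => ¬ Odd c.supp.ncard).biUnion kc := by
      ext v
      rw [mem_sdiff, mem_biUnion, mem_biUnion]
      constructor
      · rintro ⟨h1, h2⟩
        obtain ⟨x, -, rfl⟩ := mem_image.1 h1
        refine ⟨G.connectedComponentMk x, ?_, (hmem _ _).2 ⟨x, rfl, rfl⟩⟩
        rw [mem_filter]
        refine ⟨mem_univ _, fun h => h2 ⟨kc (G.connectedComponentMk x), (hKm _).2 ⟨_, h, rfl⟩, ?_⟩⟩
        exact (hmem _ _).2 ⟨x, rfl, rfl⟩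
      · rintro ⟨c, h1, h2⟩
        rw [mem_filter] at h1
        obtain ⟨x, hx, rfl⟩ := (hmem c v).1 h2
        refine ⟨mem_image_of_mem f (mem_univ x), ?_⟩
        rintro ⟨k, hk, hk2⟩
        obtain ⟨c', hc', rfl⟩ := (hKm k).1 hk
        have hk2 : f x ∈ kc c' := hk2
        obtain ⟨y, hy, he⟩ := (hmem c' _).1 hk2
        rw [hf he, hx] at hy
        rw [← hy] at hc'
        exact h1.2 hc'
    rw [e, card_biUnion (fun c _ c' _ h => hdis c c' h)]
    refine Finset.even_sum _ fun c hc => ?_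
    rw [hcard]
    exact Nat.not_odd_iff_even.1 (mem_filter.1 hc).2

theorem tutte_bridge {V : Type} [Fintype V] (Y : Finset V) (R : V → V → Prop)
    (hsym : ∀ v w, R v w → R w v) (hirr : ∀ v, ¬ R v v) :
    (∃ σ : V → V, ∀ v ∈ Y, σ v ∈ Y ∧ σ (σ v) = v ∧ R v (σ v)) ∨
    (∃ (S : Finset V) (K : Finset (Finset V)), S ⊆ Y ∧ (∀ k ∈ K, k ⊆ Y \ S ∧ Odd k.card) ∧
      (∀ k ∈ K, ∀ l ∈ K, k ≠ l → Disjoint k l) ∧
      (∀ k ∈ K, ∀ v ∈ k, ∀ w ∈ Y \ S, R v w → w ∈ k) ∧
      Even ((Y \ S) \ K.biUnion id).card ∧ S.card < K.card) := by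
  let H : SimpleGraph {v // v ∈ Y} :=
    { Adj := fun a b => R a.1 b.1
      symm := ⟨fun a b h => hsym _ _ h⟩
      loopless := ⟨fun a h => hirr _ h⟩ }
  by_cases hM : ∃ M : H.Subgraph, M.IsPerfectMatching
  · left
    obtain ⟨M, hM⟩ := hM
    have h1 : ∀ v : {v // v ∈ Y}, ∃! w, M.Adj v w := fun v => hM.1 (hM.2 v)
    choose p hp hu using h1
    have hpp : ∀ v, p (p v) = v := fun v => (hu (p v) v (hp v).symm).symm
    refine ⟨fun v => if h : v ∈ Y then (p ⟨v, h⟩).1 else v, ?_⟩
    intro v hv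
    have e : (fun v => if h : v ∈ Y then (p ⟨v, h⟩).1 else v) v = (p ⟨v, hv⟩).1 := dif_pos hv
    have e2 : ∀ w : {v // v ∈ Y}, (fun v => if h : v ∈ Y then (p ⟨v, h⟩).1 else v) w.1 = (p w).1 :=
      fun w => dif_pos w.2
    refine ⟨?_, ?_, ?_⟩
    · rw [e]; exact (p ⟨v, hv⟩).2
    · rw [e, e2, hpp]
    · rw [e]
      exact M.adj_sub (hp ⟨v, hv⟩)
  · right
    rw [SimpleGraph.tutte] at hM
    push Not at hM
    obtain ⟨u, hu⟩ := hM
    rw [SimpleGraph.IsTutteViolator] at hu
    set G' := ((⊤ : H.Subgraph).deleteVerts u).coe with hG'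
    have hinj : Function.Injective (fun x : ((⊤ : H.Subgraph).deleteVerts u).verts => x.1.1) :=
      fun x y h => Subtype.ext (Subtype.ext h)
    haveI : Fintype ((⊤ : H.Subgraph).deleteVerts u).verts := Fintype.ofFinite _
    obtain ⟨K, h1, h2, h3, h4, h5⟩ := TutB_comp G' (fun x => x.1.1) hinj R (by
      intro x y h
      show ((⊤ : H.Subgraph).deleteVerts u).Adj x.1 y.1
      rw [SimpleGraph.Subgraph.deleteVerts_adj]
      have hx : x.1 ∈ (⊤ : H.Subgraph).verts \ u := x.2
      have hy : y.1 ∈ (⊤ : H.Subgraph).verts \ u := y.2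
      exact ⟨hx.1, hx.2, hy.1, hy.2, h⟩)
    set S : Finset V := (univ.filter fun v : {v // v ∈ Y} => v ∈ u).image Subtype.val with hS
    have hSc : S.card = u.ncard := by
      rw [hS, card_image_of_injective _ Subtype.val_injective, ← Set.ncard_coe_finset]
      congr 1
      ext x
      simp
    have hZ : univ.image (fun x : ((⊤ : H.Subgraph).deleteVerts u).verts => x.1.1) = Y \ S := by
      ext v
      rw [mem_image, mem_sdiff]
      constructor
      · rintro ⟨x, -, rfl⟩
        refine ⟨x.1.2, ?_⟩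
        rw [hS, mem_image]
        rintro ⟨y, hy, he⟩
        have hx : x.1 ∈ (⊤ : H.Subgraph).verts \ u := x.2
        rw [mem_filter] at hy
        have : y = x.1 := Subtype.ext he
        rw [this] at hy
        exact hx.2 hy.2
      · rintro ⟨hv, hvS⟩
        refine ⟨⟨⟨v, hv⟩, ?_⟩, mem_univ _, rfl⟩
        show (⟨v, hv⟩ : {v // v ∈ Y}) ∈ (⊤ : H.Subgraph).verts \ u
        refine ⟨trivial, fun h => hvS ?_⟩
        rw [hS, mem_image]
        exact ⟨⟨v, hv⟩, by rw [mem_filter]; exact ⟨mem_univ _, h⟩, rfl⟩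
    rw [hZ] at h2 h4 h5
    refine ⟨S, K, ?_, h2, h3, h4, h5, ?_⟩
    · intro v hv
      rw [hS, mem_image] at hv
      obtain ⟨y, -, rfl⟩ := hv
      exact y.2
    · rw [hSc, h1]
      exact hu

end Pool.Agent.JKS
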