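import Pool.Agent.JKS.Cnt
import Pool.Agent.JKS.TutB
import Pool.Agent.JKS.Exit
import Pool.Agent.JKS.EdgeOf
/-! Ex (2): in an r-regular graph whose odd cuts have at least r edges (r ≥ 1) every edge lies in a
perfect matching.

PROOF.  |V| is even (otherwise X = univ is odd with empty cut, r ≤ 0).  t = fst e0, u = snd e0,
X = univ.erase u, v0 = t, Y = X.erase t.  `tutte_bridge Y G.Adj`.  If there is σ, then G.Feas Y and
`edges_of_feas` gives M_Y; M = insert e0 M_Y.  Otherwise S, K with |S| < |K|, and |S| + 2 ≤ |K| by parity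
(|Y| even, see LemL).  `count` with this X, v0: cut X = edges at u, |cut X| = deg u = r; out X t ≥ 1
(e0).  So Σ_k |cut k| + 2 ≤ r (|S|+1) + r, while Σ_k |cut k| ≥ r |K| ≥ r (|S|+2): contradiction. -/
namespace Pool.Agent.JKS
open Finset
open scoped Classical

theorem Ex_adj_symm {V E : Type} (G : MG V E) (v w : V) (h : G.Adj v w) : G.Adj w v := by
  obtain ⟨e, he⟩ := h
  exact ⟨e, he.symm⟩

theorem Ex_adj_irr {V E : Type} (G : MG V E) (v : V) : ¬ G.Adj v v := by
  rintro ⟨e, ⟨h1, h2⟩ | ⟨h1, h2⟩⟩
  · exact G.ne e (h1.trans h2.symm)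
  · exact G.ne e (h1.trans h2.symm)

theorem Ex_cut {V E : Type} [Fintype V] [Fintype E] (G : MG V E) (u : V) :
    G.cut (Finset.univ.erase u) = Finset.univ.filter (fun e => G.Inc e u) := by
  ext e
  unfold MG.cut MG.Inc
  simp only [mem_filter, mem_univ, true_and, mem_erase, and_true]
  have h := G.ne e
  constructor
  · rintro (⟨h1, h2⟩ | ⟨h1, h2⟩)
    · exact Or.inr (not_not.1 h2)
    · exact Or.inl (not_not.1 h1)
  · rintro (h1 | h1)
    · right
      refine ⟨not_not.2 h1, ?_⟩
      rw [← h1]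
      exact h.symm
    · left
      refine ⟨?_, not_not.2 h1⟩
      rw [← h1]
      exact h

theorem Ex_par {V : Type} (Y S : Finset V) (K : Finset (Finset V)) (hSY : S ⊆ Y)
    (hK : ∀ k ∈ K, k ⊆ Y \ S ∧ Odd k.card) (hdis : ∀ k ∈ K, ∀ l ∈ K, k ≠ l → Disjoint k l)
    (hrest : Even ((Y \ S) \ K.biUnion id).card) (hY : Even Y.card) (hlt : S.card < K.card) :
    S.card + 2 ≤ K.card := by
  have h1 : K.biUnion id ⊆ Y \ S := by
    intro v hv
    rw [mem_biUnion] at hv
    obtain ⟨k, hk, hvk⟩ := hv
    exact (hK k hk).1 hvk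
  have h2 : (K.biUnion id).card = ∑ k ∈ K, k.card := by
    exact card_biUnion (t := fun k => id k) (fun k hk l hl hkl => hdis k hk l hl hkl)
  have h3 : (Y \ S).card = (K.biUnion id).card + ((Y \ S) \ K.biUnion id).card := by
    rw [card_sdiff_of_subset h1]
    have := card_le_card h1
    omega
  have h4 : Y.card = S.card + (Y \ S).card := by
    rw [card_sdiff_of_subset hSY]
    have := card_le_card hSY
    omega
  have h5 : ∀ (L : Finset (Finset V)), (∀ k ∈ L, Odd k.card) →
      (∑ k ∈ L, k.card) % 2 = L.card % 2 := by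
    intro L
    induction L using Finset.induction_on with
    | empty => intro _; simp
    | insert a L ha ih =>
      intro hL
      rw [sum_insert ha, card_insert_of_notMem ha]
      have e1 := ih (fun k hk => hL k (mem_insert_of_mem hk))
      have e2 := Nat.odd_iff.1 (hL a (mem_insert_self _ _))
      omega
  have h6 := h5 K (fun k hk => (hK k hk).2)
  rw [← h2] at h6
  have h7 := Nat.even_iff.1 hrest
  have h8 := Nat.even_iff.1 hY
  omega

theorem pm_through {V E : Type} [Fintype V] [Fintype E] (G : MG V E) (r : ℕ) (hr : 0 < r)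
    (hdeg : ∀ v, G.deg v = r) (hodd : ∀ X : Finset V, Odd X.card → r ≤ (G.cut X).card) (e0 : E) :
    ∃ M : Finset E, G.IsPM M ∧ e0 ∈ M := by
  have hVe : Even (Fintype.card V) := by
    by_contra hne
    rw [Nat.not_even_iff_odd] at hne
    have h1 := hodd Finset.univ (by rw [card_univ]; exact hne)
    have h2 : G.cut (Finset.univ : Finset V) = ∅ := by
      unfold MG.cut
      simp
    rw [h2, card_empty] at h1
    omega
  have htu : G.fst e0 ≠ G.snd e0 := G.ne e0
  have htX : G.fst e0 ∈ (Finset.univ.erase (G.snd e0) : Finset V) := by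
    rw [mem_erase]
    exact ⟨htu, mem_univ _⟩
  have hcard : ((Finset.univ.erase (G.snd e0)).erase (G.fst e0)).card + 2 = Fintype.card V := by
    have h1 := card_erase_add_one htX
    have h2 := card_erase_add_one (mem_univ (G.snd e0))
    rw [card_univ] at h2
    omega
  have hYe : Even ((Finset.univ.erase (G.snd e0)).erase (G.fst e0)).card := by
    rw [← hcard] at hVe
    rw [Nat.even_iff] at hVe ⊢
    omega
  rcases tutte_bridge ((Finset.univ.erase (G.snd e0)).erase (G.fst e0)) G.Adj (Ex_adj_symm G)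
    (Ex_adj_irr G) with hσ | ⟨S, K, hSY, hK, hdis, hcl, hrest, hlt⟩
  · have hF : G.Feas ((Finset.univ.erase (G.snd e0)).erase (G.fst e0)) := hσ
    obtain ⟨M, hM1, hM2⟩ := edges_of_feas G _ hF
    refine ⟨insert e0 M, ?_, mem_insert_self _ _⟩
    intro v
    by_cases hv : v ∈ (Finset.univ.erase (G.snd e0)).erase (G.fst e0)
    · obtain ⟨e, ⟨he1, he2⟩, he3⟩ := hM2 v hv
      refine ⟨e, ⟨mem_insert_of_mem he1, he2⟩, ?_⟩
      rintro f ⟨hf1, hf2⟩
      rcases mem_insert.1 hf1 with rfl | hf1
      · exfalso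
        rw [mem_erase, mem_erase] at hv
        rcases hf2 with h | h
        · exact hv.1 h.symm
        · exact hv.2.1 h.symm
      · exact he3 f ⟨hf1, hf2⟩
    · have hinc : G.Inc e0 v := by
        rw [mem_erase, mem_erase] at hv
        by_contra hni
        apply hv
        refine ⟨fun h => hni (Or.inl h.symm), fun h => hni (Or.inr h.symm), mem_univ _⟩
      refine ⟨e0, ⟨mem_insert_self _ _, hinc⟩, ?_⟩
      rintro f ⟨hf1, hf2⟩
      rcases mem_insert.1 hf1 with rfl | hf1
      · rfl
      · exfalso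
        obtain ⟨h1, h2⟩ := hM1 f hf1
        rcases hf2 with h | h
        · rw [h] at h1; exact hv h1
        · rw [h] at h2; exact hv h2
  · exfalso
    have h2 := Ex_par _ S K hSY hK hdis hrest hYe hlt
    have h3 := count G r (fun v => (hdeg v).le) (Finset.univ.erase (G.snd e0)) (G.fst e0) htX S hSY K
      (fun k hk => (hK k hk).1) hdis hcl
    have h4 : (G.cut (Finset.univ.erase (G.snd e0))).card = r := by
      rw [Ex_cut]
      exact hdeg _
    rw [h4] at h3
    have h5 : 1 ≤ G.out (Finset.univ.erase (G.snd e0)) (G.fst e0) := by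
      unfold MG.out
      rw [Nat.one_le_iff_ne_zero, Ne, card_eq_zero, ← Ne, ← nonempty_iff_ne_empty]
      refine ⟨e0, ?_⟩
      rw [mem_filter]
      refine ⟨?_, Or.inl rfl⟩
      rw [Ex_cut, mem_filter]
      exact ⟨mem_univ _, Or.inr rfl⟩
    have h6 : G.out (Finset.univ.erase (G.snd e0)) (G.fst e0) ≤
        ∑ s ∈ insert (G.fst e0) S, G.out (Finset.univ.erase (G.snd e0)) s :=
      single_le_sum (f := fun s => G.out (Finset.univ.erase (G.snd e0)) s)
        (fun _ _ => Nat.zero_le _) (mem_insert_self _ _)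
    have h7 : r * K.card ≤ ∑ k ∈ K, (G.cut k).card := by
      rw [mul_comm, ← smul_eq_mul]
      exact card_nsmul_le_sum K _ r (fun k hk => hodd k (hK k hk).2)
    have h8 : r * (S.card + 2) ≤ r * K.card := Nat.mul_le_mul_left r h2
    have h9 : r * (S.card + 2) = r * (S.card + 1) + r := by ring
    omega

end Pool.Agent.JKS
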