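import Pool.Agent.JKS.Cor
/-! Fin: the case of Jackson's question. -/
namespace Pool.Agent.JKS
open Finset
open scoped Classical

variable {V E : Type}

theorem cut_univ [Fintype V] [Fintype E] (G : MG V E) : G.cut Finset.univ = ∅ := by
  ext e; simp [mem_cut]

theorem jackson_off [Fintype V] [Fintype E] (G : MG V E) (h5 : ∀ v, G.deg v = 5)
    (h4 : ∀ X : Finset V, X.Nonempty → X ≠ Finset.univ → 4 ≤ (G.cut X).card)
    (N : Finset E) (hN : G.IsMatching N) (s t : V) (hst : s ≠ t)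
    (hcov : ∀ v, G.Cov N v ↔ v ≠ s ∧ v ≠ t) (e0 : E) (he : G.Inc e0 t) :
    ∃ M : Finset E, G.IsPM M ∧ e0 ∈ M ∧
      ∀ X : Finset V, Odd X.card → G.cut X ⊆ M → (G.cut X ∩ N).Nonempty := by
  obtain ⟨M, hM, heM, h⟩ := off_N G 5 (by norm_num) h5 (fun X hX => odd_cut_five G h5 h4 X hX) N hN s t
    hst hcov e0 he
  refine ⟨M, hM, heM, fun X hX hc => ?_⟩
  obtain ⟨e, h1, h2⟩ := h X hX (fun e he => hc he)
  exact ⟨e, by simp [h1, h2]⟩

theorem jackson_short [Fintype V] [Fintype E] (G : MG V E) (h5 : ∀ v, G.deg v = 5)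
    (h4 : ∀ X : Finset V, X.Nonempty → X ≠ Finset.univ → 4 ≤ (G.cut X).card)
    (N : Finset E) (hN : G.IsMatching N) (hsh : ∀ e ∈ N, G.Short e)
    (hU : (Finset.univ.filter (fun v => ¬ G.Cov N v)).card ≤ 2) :
    (∃ M : Finset E, G.IsPM M ∧ ∀ X : Finset V, Odd X.card → ¬ G.cut X ⊆ M) ∧
    (∀ t, ¬ G.Cov N t → ∀ e0, G.Inc e0 t →
      ∃ M : Finset E, G.IsPM M ∧ e0 ∈ M ∧ ∀ X : Finset V, Odd X.card → ¬ G.cut X ⊆ M) := by
  have hVe : Even (Finset.univ : Finset V).card := by
    by_contra h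
    rw [Nat.not_even_iff_odd] at h
    have := odd_cut_five G h5 h4 Finset.univ h
    rw [cut_univ] at this
    simp at this
  have hcovE : Even (Finset.univ.filter (fun v => G.Cov N v)).card :=
    even_covered G N hN Finset.univ (by rw [cut_univ]; simp)
  have hsum : (Finset.univ.filter (fun v => G.Cov N v)).card +
      (Finset.univ.filter (fun v => ¬ G.Cov N v)).card = (Finset.univ : Finset V).card := by
    rw [Finset.card_filter_add_card_filter_not]
  have hUe : Even (Finset.univ.filter (fun v => ¬ G.Cov N v)).card := by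
    rw [← hsum] at hVe
    exact (Nat.even_add.mp hVe).mp hcovE
  have second : ∀ t, ¬ G.Cov N t → ∀ e0, G.Inc e0 t →
      ∃ M : Finset E, G.IsPM M ∧ e0 ∈ M ∧ ∀ X : Finset V, Odd X.card → ¬ G.cut X ⊆ M := by
    intro t ht e0 he
    have htm : t ∈ Finset.univ.filter (fun v => ¬ G.Cov N v) := by simp [ht]
    have h2 : (Finset.univ.filter (fun v => ¬ G.Cov N v)).card = 2 := by
      have hpos := Finset.card_pos.mpr ⟨t, htm⟩
      obtain ⟨k, hk⟩ := hUe
      omega
    obtain ⟨a, b, hab, hset⟩ := Finset.card_eq_two.mp h2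
    have hchar : ∀ v, ¬ G.Cov N v ↔ v = a ∨ v = b := by
      intro v
      have : v ∈ Finset.univ.filter (fun v => ¬ G.Cov N v) ↔ v ∈ ({a, b} : Finset V) := by rw [hset]
      simpa using this
    have key : ∀ s, s ≠ t → (∀ v, ¬ G.Cov N v ↔ v = s ∨ v = t) →
        ∃ M : Finset E, G.IsPM M ∧ e0 ∈ M ∧ ∀ X : Finset V, Odd X.card → ¬ G.cut X ⊆ M := by
      intro s hst hs
      obtain ⟨M, hM, heM, h⟩ := off_N G 5 (by norm_num) h5 (fun X hX => odd_cut_five G h5 h4 X hX) N hN s t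
        hst (fun v => by rw [← not_iff_not, hs]; tauto) e0 he
      refine ⟨M, hM, heM, fun X hX hc => ?_⟩
      obtain ⟨e, h1, h2⟩ := h X hX (fun e he => hc he)
      exact short_not_mem G M hM X (fun e he => hc he) e h1 (hsh e h2)
    rcases (hchar t).mp ht with rfl | rfl
    · exact key b hab.symm (fun v => by rw [hchar]; tauto)
    · exact key a hab hchar
  refine ⟨?_, second⟩
  by_cases hex : ∃ t, ¬ G.Cov N t
  · obtain ⟨t, ht⟩ := hex
    have hd : 0 < G.deg t := by rw [h5]; norm_num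
    obtain ⟨e0, he0⟩ := Finset.card_pos.mp hd
    simp only [mem_filter, mem_univ, true_and] at he0
    obtain ⟨M, h1, _, h3⟩ := second t ht e0 he0
    exact ⟨M, h1, h3⟩
  · push Not at hex
    have hPM : G.IsPM N := by
      intro v
      obtain ⟨e, heN, hev⟩ := hex v
      exact ⟨e, ⟨heN, hev⟩, fun f hf => hN v f hf.1 e heN hf.2 hev⟩
    refine ⟨N, hPM, fun X hX hc => ?_⟩
    have h5' := odd_cut_five G h5 h4 X hX
    obtain ⟨e, he⟩ := Finset.card_pos.mp (by omega : 0 < (G.cut X).card)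
    exact short_not_mem G N hPM X (fun e he => hc he) e he (hsh e (hc he))

end Pool.Agent.JKS
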