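import Mathlib
/-! Pair (3): orbits of two involutions.  `μ, ν` are involutions of the finite set `B`, and `t` is
the ONLY fixed point of `ν` in `B`.  (In the application μ = partner in the matching M inside B,
fixed at the vertices matched outside B; ν = partner in N.)

PROOF.  Work with the permutations μ, ν of the subtype `{v // v ∈ B}` and ρ := μ ∘ ν (a
permutation, with inverse ν ∘ μ).  For b let O(b) = {ρ^i b} (cycle of length ℓ = the minimal period
of b under ρ, `Function.minimalPeriod`).  Let μ b = b.  Then μ (ρ^i b) = ρ^(-i) b and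
ν (ρ^i b) = ρ^(-i-1) b (because ν = μ ρ ... : ν x = μ (ρ x)), so O(b) is closed under μ and ν, and
ρ^i b (0 ≤ i < ℓ) is a fixed point of μ iff ℓ ∣ 2 i iff i = 0 or 2 i = ℓ; it is a fixed point of ν iff
ℓ ∣ 2 i + 1.  Hence: if ℓ is even, O(b) contains exactly two fixed points of μ, namely b and
π b := ρ^(ℓ/2) b ≠ b, and no fixed point of ν, so t ∉ O(b); if ℓ is odd, b is the only fixed point of
μ in O(b) and O(b) contains a fixed point of ν, which is t.  Orbits are equal or disjoint, so there is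
at most one such b; it exists: let ℓ be the period of t; ν (ρ^i t) = ρ^(-i) t... (same computation
with the roles of μ and ν exchanged, for ρ' = ν ∘ μ = ρ^(-1)): if ℓ were even there would be a second
fixed point of ν in O(t), so ℓ is odd and O(t) contains exactly one fixed point w of μ.
π (π b) = b since ρ^(ℓ/2) ρ^(ℓ/2) b = b and the period of π b is ℓ.  For Q closed under π take
C := ⋃_{b ∈ Q} O(b): closed under μ, ν, t ∉ C, and its μ-fixed points are those of Q.
(Any other proof is fine, e.g. by counting degrees in the graph with edges {b, μ b}, {b, ν b}.) -/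
namespace Pool.Agent.JKS
open Finset
open scoped Classical

/-- extension of an involution of `B` -/
theorem Pair_ext {V : Type} (B : Finset V) (μ : V → V) (h : ∀ b ∈ B, μ b ∈ B ∧ μ (μ b) = b) :
    ∃ M : Equiv.Perm V, M * M = 1 ∧ ∀ b ∈ B, M b = μ b := by
  have hinv : ∀ v, (if (if v ∈ B then μ v else v) ∈ B then μ (if v ∈ B then μ v else v) else (if v ∈ B then μ v else v)) = v := by
    intro v
    by_cases hv : v ∈ B
    · rw [if_pos hv, if_pos (h v hv).1, (h v hv).2]
    · rw [if_neg hv, if_neg hv]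
  refine ⟨⟨fun v => if v ∈ B then μ v else v, fun v => if v ∈ B then μ v else v, hinv, hinv⟩, ?_, fun b hb => if_pos hb⟩
  ext v
  exact hinv v

/-- the permutations preserving `B` -/
def Pair_H {V : Type} (B : Finset V) : Subgroup (Equiv.Perm V) where
  carrier := {g | ∀ b, g b ∈ B ↔ b ∈ B}
  mul_mem' := by
    intro g h hg hh b
    exact (hg (h b)).trans (hh b)
  one_mem' := fun b => Iff.rfl
  inv_mem' := by
    intro g hg b
    have h := hg (g⁻¹ b)
    have h2 : g (g⁻¹ b) = b := g.apply_symm_apply b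
    rw [h2] at h
    exact h.symm

theorem Pair_mem {V : Type} (B : Finset V) {M : Equiv.Perm V} (hM : M * M = 1) (h : ∀ b ∈ B, M b ∈ B) :
    M ∈ Pair_H B := by
  intro b
  refine ⟨fun hb => ?_, h b⟩
  have h1 := h _ hb
  have h2 : M (M b) = b := congrArg (fun g : Equiv.Perm V => g b) hM
  rwa [h2] at h1

/-- the period -/
noncomputable def Pair_per {V : Type} (R : Equiv.Perm V) (x : V) : ℕ := Function.minimalPeriod (fun y => R • y) x

theorem Pair_iff {V : Type} (R : Equiv.Perm V) (x : V) (n : ℤ) : (R ^ n) x = x ↔ (Pair_per R x : ℤ) ∣ n := by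
  have h := MulAction.zpow_smul_eq_iff_minimalPeriod_dvd (a := R) (b := x) (n := n)
  exact h

theorem Pair_pos {V : Type} [Fintype V] (R : Equiv.Perm V) (x : V) : 0 < Pair_per R x := by
  by_contra hc
  have h0 : Pair_per R x = 0 := by omega
  have h1 : (R ^ ((orderOf R : ℕ) : ℤ)) x = x := by
    rw [zpow_natCast, pow_orderOf_eq_one]
    rfl
  rw [Pair_iff, h0] at h1
  have h2 := orderOf_pos R
  have h3 : ((orderOf R : ℕ) : ℤ) = 0 := by
    have := h1
    rwa [Nat.cast_zero, zero_dvd_iff] at this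
  omega

theorem Pair_eq {V : Type} (R : Equiv.Perm V) (x : V) (i j : ℤ) :
    (R ^ i) x = (R ^ j) x ↔ (Pair_per R x : ℤ) ∣ i - j := by
  rw [← Pair_iff]
  constructor
  · intro h
    have h1 := congrArg (fun y => (R ^ (-j)) y) h
    change (R ^ (-j) * R ^ i) x = (R ^ (-j) * R ^ j) x at h1
    rw [← zpow_add, ← zpow_add] at h1
    rw [show -j + j = 0 by ring, zpow_zero] at h1
    rw [show i - j = -j + i by ring, h1]
    rfl
  · intro h
    have h1 := congrArg (fun y => (R ^ j) y) h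
    change (R ^ j * R ^ (i - j)) x = (R ^ j) x at h1
    rwa [← zpow_add, show j + (i - j) = i by ring] at h1

theorem Pair_conj {V : Type} (R : Equiv.Perm V) (x : V) (k : ℤ) : Pair_per R ((R ^ k) x) = Pair_per R x := by
  have h : ∀ n : ℤ, (Pair_per R ((R ^ k) x) : ℤ) ∣ n ↔ (Pair_per R x : ℤ) ∣ n := by
    intro n
    rw [← Pair_iff]
    have h1 : (R ^ n) ((R ^ k) x) = (R ^ (n + k)) x := by
      rw [zpow_add]
      rfl
    rw [h1, Pair_eq, add_sub_cancel_right]
  have h1 := (h _).1 dvd_rfl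
  have h2 := (h _).2 dvd_rfl
  exact Nat.dvd_antisymm (Int.natCast_dvd_natCast.1 h2) (Int.natCast_dvd_natCast.1 h1)

theorem Pair_M {V : Type} {M N : Equiv.Perm V} (hM : M * M = 1) (hN : N * N = 1) (i : ℤ) :
    M * (M * N) ^ i = (M * N) ^ (-i) * M := by
  have h1 : M⁻¹ = M := by
    rw [inv_eq_iff_mul_eq_one]
    exact hM
  have h2 : N⁻¹ = N := by
    rw [inv_eq_iff_mul_eq_one]
    exact hN
  have h3 : M * (M * N) * M⁻¹ = (M * N)⁻¹ := by
    rw [mul_inv_rev, h1, h2, ← mul_assoc, hM, one_mul]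
  have h4 : M * (M * N) ^ i * M⁻¹ = (M * N) ^ (-i) := by
    rw [← conj_zpow, h3, inv_zpow, zpow_neg]
  rw [← h4, inv_mul_cancel_right]

theorem pairing {V : Type} [Fintype V] (B : Finset V) (μ ν : V → V)
    (hμ : ∀ b ∈ B, μ b ∈ B ∧ μ (μ b) = b) (hν : ∀ b ∈ B, ν b ∈ B ∧ ν (ν b) = b)
    (t : V) (ht : t ∈ B) (hνt : ν t = t) (hν' : ∀ b ∈ B, ν b = b → b = t) :
    ∃ (w : V) (π : V → V), w ∈ B ∧ μ w = w ∧
      (∀ b ∈ B, μ b = b → b ≠ w → π b ∈ B ∧ μ (π b) = π b ∧ π b ≠ w ∧ π b ≠ b ∧ π (π b) = b) ∧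
      ∀ Q : Finset V, (∀ b ∈ Q, b ∈ B ∧ μ b = b ∧ b ≠ w ∧ π b ∈ Q) →
        ∃ C : Finset V, C ⊆ B ∧ (∀ b ∈ C, μ b ∈ C ∧ ν b ∈ C) ∧ t ∉ C ∧
          ∀ b ∈ B, μ b = b → (b ∈ C ↔ b ∈ Q) := by
  obtain ⟨M, hM, hMμ⟩ := Pair_ext B μ hμ
  obtain ⟨N, hN, hNν⟩ := Pair_ext B ν hν
  have hMB : M ∈ Pair_H B := Pair_mem B hM fun b hb => by rw [hMμ b hb]; exact (hμ b hb).1
  have hNB : N ∈ Pair_H B := Pair_mem B hN fun b hb => by rw [hNν b hb]; exact (hν b hb).1
  obtain ⟨R, hR⟩ : ∃ R, R = M * N := ⟨_, rfl⟩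
  have hRB : ∀ (i : ℤ) (b : V), b ∈ B → (R ^ i) b ∈ B := by
    intro i b hb
    have h1 : R ^ i ∈ Pair_H B := (Pair_H B).zpow_mem (by rw [hR]; exact (Pair_H B).mul_mem hMB hNB) i
    exact (h1 b).2 hb
  have hadd : ∀ (i j : ℤ) (x : V), (R ^ i) ((R ^ j) x) = (R ^ (i + j)) x := by
    intro i j x
    rw [zpow_add]
    rfl
  -- `M` and `N` on the orbits
  have hMR : ∀ (i : ℤ) (x : V), M ((R ^ i) x) = (R ^ (-i)) (M x) := by
    intro i x
    have h1 := congrArg (fun g : Equiv.Perm V => g x) (Pair_M hM hN i)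
    rw [← hR] at h1
    exact h1
  have hMM : ∀ x, M (M x) = x := fun x => congrArg (fun g : Equiv.Perm V => g x) hM
  have hNN : ∀ x, N (N x) = x := fun x => congrArg (fun g : Equiv.Perm V => g x) hN
  have hR1 : ∀ x, R x = M (N x) := fun x => by rw [hR]; rfl
  have hNx : ∀ x, N x = M (R x) := fun x => by rw [hR1, hMM]
  have hNR : ∀ (i : ℤ) (x : V), N ((R ^ i) x) = (R ^ (-i - 1)) (M x) := by
    intro i x
    have h1 : R ((R ^ i) x) = (R ^ (i + 1)) x := by
      rw [add_comm, ← hadd 1 i, zpow_one]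
    rw [hNx, h1, hMR, show -(i + 1) = -i - 1 by ring]
  have hMN : ∀ x, M x = (R ^ (1 : ℤ)) (N x) := fun x => by rw [zpow_one, hR1, hNN]
  have hNR2 : ∀ (i : ℤ) (x : V), N ((R ^ i) x) = (R ^ (-i)) (N x) := by
    intro i x
    rw [hNR, hMN, hadd, show -i - 1 + 1 = -i by ring]
  have hMR2 : ∀ (i : ℤ) (x : V), M ((R ^ i) x) = (R ^ (1 - i)) (N x) := by
    intro i x
    rw [hMR, hMN, hadd, show -i + 1 = 1 - i by ring]
  have hNt : N t = t := by rw [hNν t ht, hνt]
  have hNfix : ∀ b ∈ B, N b = b → b = t := fun b hb h => hν' b hb (by rw [← hNν b hb]; exact h)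
  -- fixed points of `M` on the orbit of a fixed point of `M`
  have hMf : ∀ b, M b = b → ∀ i : ℤ, M ((R ^ i) b) = (R ^ i) b ↔ (Pair_per R b : ℤ) ∣ 2 * i := by
    intro b hb i
    rw [hMR, hb, Pair_eq]
    rw [show -i - i = -(2 * i) by ring, dvd_neg]
  have hNf : ∀ b, M b = b → ∀ i : ℤ, N ((R ^ i) b) = (R ^ i) b ↔ (Pair_per R b : ℤ) ∣ 2 * i + 1 := by
    intro b hb i
    rw [hNR, hb, Pair_eq]
    rw [show -i - 1 - i = -(2 * i + 1) by ring, dvd_neg]
  -- the fixed points in an orbit of odd length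
  have hodd : ∀ b, M b = b → Odd (Pair_per R b) → ∀ i : ℤ, M ((R ^ i) b) = (R ^ i) b → (R ^ i) b = b := by
    intro b hb ho i hi
    rw [hMf b hb] at hi
    rw [Pair_iff]
    refine IsCoprime.dvd_of_dvd_mul_left ?_ hi
    obtain ⟨h, hh⟩ := ho
    exact ⟨1, -h, by rw [hh]; push_cast; ring⟩
  -- an orbit of odd length contains `t`
  have htodd : ∀ b ∈ B, M b = b → Odd (Pair_per R b) → ∃ i : ℤ, (R ^ i) b = t := by
    intro b hbB hb ho
    obtain ⟨h, hh⟩ := ho
    refine ⟨h, hNfix _ (hRB _ b hbB) ?_⟩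
    rw [hNf b hb, hh]
    push_cast
    exact dvd_rfl
  have huniq : ∀ b ∈ B, ∀ b' ∈ B, M b = b → M b' = b' → Odd (Pair_per R b) → Odd (Pair_per R b') → b' = b := by
    intro b hb b' hb' hf hf' ho ho'
    obtain ⟨i, hi⟩ := htodd b hb hf ho
    obtain ⟨j, hj⟩ := htodd b' hb' hf' ho'
    have h1 : b' = (R ^ (-j + i)) b := by
      rw [← hadd, hi, ← hj, hadd, neg_add_cancel, zpow_zero]
      rfl
    have h2 := hodd b hf ho (-j + i) (by rw [← h1]; exact hf')
    rw [← h1] at h2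
    exact h2
  -- the period of `t` is odd
  have hto : Odd (Pair_per R t) := by
    by_contra hc
    rw [Nat.not_odd_iff_even] at hc
    obtain ⟨h, hh⟩ := hc
    have hp := Pair_pos R t
    have h1 : N ((R ^ (h : ℤ)) t) = (R ^ (h : ℤ)) t := by
      rw [hNR2, hNt, Pair_eq, hh]
      push_cast
      rw [show (-(h : ℤ)) - h = -((h : ℤ) + h) by ring, dvd_neg]
    have h2 := hNfix _ (hRB _ t ht) h1
    rw [Pair_iff, hh] at h2
    have h3 := Int.le_of_dvd (by omega) h2
    push_cast at h3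
    omega
  obtain ⟨h, hh⟩ := hto
  obtain ⟨w, hw⟩ : ∃ w, w = (R ^ ((h : ℤ) + 1)) t := ⟨_, rfl⟩
  have hwB : w ∈ B := by rw [hw]; exact hRB _ t ht
  have hwM : M w = w := by
    rw [hw, hMR2, hNt, Pair_eq, hh]
    push_cast
    rw [show (1 : ℤ) - (h + 1) - (h + 1) = -(2 * h + 1) by ring, dvd_neg]
  have hwo : Odd (Pair_per R w) := by
    rw [hw, Pair_conj]
    exact ⟨h, hh⟩
  have heven : ∀ b ∈ B, μ b = b → b ≠ w → ∃ k : ℕ, 0 < k ∧ Pair_per R b = 2 * k := by
    intro b hb hμb hbw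
    have h1 : ¬ Odd (Pair_per R b) := fun ho => hbw (huniq w hwB b hb hwM (by rw [hMμ b hb]; exact hμb) hwo ho)
    rw [Nat.not_odd_iff_even] at h1
    obtain ⟨k, hk⟩ := h1
    have := Pair_pos R b
    exact ⟨k, by omega, by omega⟩
  obtain ⟨π, hπ⟩ : ∃ π : V → V, ∀ b, π b = (R ^ (((Pair_per R b / 2 : ℕ)) : ℤ)) b := ⟨fun b => _, fun b => rfl⟩
  refine ⟨w, π, hwB, by rw [← hMμ w hwB]; exact hwM, ?_, ?_⟩
  · intro b hb hμb hbw
    have hfb : M b = b := by rw [hMμ b hb]; exact hμb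
    obtain ⟨k, hk0, hk⟩ := heven b hb hμb hbw
    have hπb : π b = (R ^ (k : ℤ)) b := by
      rw [hπ, hk, Nat.mul_div_cancel_left k (by norm_num)]
    have h1 : π b ∈ B := by rw [hπb]; exact hRB _ b hb
    have hper : Pair_per R (π b) = 2 * k := by rw [hπb, Pair_conj, hk]
    have hMπ : M (π b) = π b := by
      rw [hπb, hMf b hfb, hk]
      push_cast
      exact dvd_rfl
    refine ⟨h1, by rw [← hMμ _ h1]; exact hMπ, ?_, ?_, ?_⟩
    · intro hc
      rw [← hc, hper] at hwo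
      obtain ⟨j, hj⟩ := hwo
      omega
    · intro hc
      rw [hπb, Pair_iff, hk] at hc
      have h3 := Int.le_of_dvd (by omega) hc
      push_cast at h3
      omega
    · rw [hπ (π b), hper, Nat.mul_div_cancel_left k (by norm_num), hπb, hadd, Pair_iff, hk]
      push_cast
      exact ⟨1, by ring⟩
  · intro Q hQ
    refine ⟨B.filter fun x => ∃ b ∈ Q, ∃ i : ℤ, x = (R ^ i) b, Finset.filter_subset _ _, ?_, ?_, ?_⟩
    · intro x hx
      rw [Finset.mem_filter] at hx
      obtain ⟨hxB, b, hbQ, i, rfl⟩ := hx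
      obtain ⟨hbB, hμb, _, _⟩ := hQ b hbQ
      have hfb : M b = b := by rw [hMμ b hbB]; exact hμb
      constructor
      · rw [Finset.mem_filter]
        refine ⟨(hμ _ hxB).1, b, hbQ, -i, ?_⟩
        rw [← hMμ _ hxB, hMR, hfb]
      · rw [Finset.mem_filter]
        refine ⟨(hν _ hxB).1, b, hbQ, -i - 1, ?_⟩
        rw [← hNν _ hxB, hNR, hfb]
    · intro hc
      rw [Finset.mem_filter] at hc
      obtain ⟨_, b, hbQ, i, hi⟩ := hc
      obtain ⟨hbB, hμb, hbw, _⟩ := hQ b hbQ
      have hfb : M b = b := by rw [hMμ b hbB]; exact hμb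
      obtain ⟨k, hk0, hk⟩ := heven b hbB hμb hbw
      have h1 : N ((R ^ i) b) = (R ^ i) b := by rw [← hi]; exact hNt
      rw [hNf b hfb, hk] at h1
      obtain ⟨c, hc⟩ := h1
      push_cast at hc
      have h2 : (2 : ℤ) ∣ 2 * i + 1 := ⟨k * c, by rw [hc]; ring⟩
      omega
    · intro x hxB hμx
      rw [Finset.mem_filter]
      constructor
      · rintro ⟨_, b, hbQ, i, hi⟩
        obtain ⟨hbB, hμb, hbw, hπQ⟩ := hQ b hbQ
        have hfb : M b = b := by rw [hMμ b hbB]; exact hμb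
        obtain ⟨k, hk0, hk⟩ := heven b hbB hμb hbw
        have h1 : M ((R ^ i) b) = (R ^ i) b := by rw [← hi, hMμ x hxB]; exact hμx
        rw [hMf b hfb, hk] at h1
        obtain ⟨c, hc⟩ := h1
        push_cast at hc
        have hc2 : i = k * c := by
          have : (2 : ℤ) * i = 2 * (k * c) := by rw [hc]; ring
          omega
        rcases Int.even_or_odd c with ⟨d, hd⟩ | ⟨d, hd⟩
        · have h3 : x = b := by
            rw [hi, Pair_iff, hk, hc2, hd]
            push_cast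
            exact ⟨d, by ring⟩
          rw [h3]
          exact hbQ
        · have h3 : x = π b := by
            rw [hi, hπ, hk, Nat.mul_div_cancel_left k (by norm_num), Pair_eq, hk, hc2, hd]
            push_cast
            exact ⟨d, by ring⟩
          rw [h3]
          exact hπQ
      · intro hxQ
        exact ⟨hxB, x, hxQ, 0, by rw [zpow_zero]; rfl⟩

end Pool.Agent.JKS
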