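import Pool.Agent.JKS.LemL
import Pool.Agent.JKS.Pair
import Pool.Agent.JKS.EdgeOf
/-! Impr (4): the improvement step.

DATA: M a perfect matching containing e0 (at t), N a matching not covering t; B ∋ t with
cut B ⊆ M \ N, and N covers every vertex of B except t.
CLAIM: there is a perfect matching M' ∋ e0 with M' ∩ E(B) ⊆ M ∪ N and cut B ⊄ M'.

PROOF.  (1) M is a matching covering everything; let m be its partner function (`exists_partner`), and n
that of N.  Since cut B ∩ N = ∅, n maps B to B.  μ v := m v if m v ∈ B, else v; ν := n.  μ, ν are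
involutions of B, ν has the only fixed point t in B.  W := {b ∈ B | μ b = b} = {b ∈ B | m b ∉ B} = the ends in
B of the edges of cut B.  `pairing`: w ∈ W and π_W on W \ {w}.
(2) A := univ \ B.  cut A = cut B (complement: the same edges), and b ↦ (edge of M at b) is a bijection
W → cut B (every edge of cut B is in M; M is a matching); m is a bijection of W onto the set m(W) of
the ends in A.  v0 := m w, P := m(W \ {w}), π := m ∘ π_W ∘ m (on P).  |cut A| = |W| = |P| + 1 < |P| + r.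
A \ ({v0} ∪ P) is closed under m, so feasible.  `lemL` with X = A: a π-closed Q ⊊ P and
G.Feas (A \ ({v0} ∪ Q)); `edges_of_feas`: M_A.
(3) Q' := m(P \ Q) ⊆ W \ {w}, closed under π_W (P \ Q is π-closed), nonempty.  `pairing` gives C ⊆ B closed
under μ and ν, t ∉ C, and for b ∈ W: b ∈ C ↔ b ∈ Q'.
M' := M_A ∪ {e ∈ M | e ∈ cut B, its end in A is in {v0} ∪ Q} ∪ {e ∈ M | both ends in B \ C}
      ∪ {e ∈ N | both ends in C}.
(4) M' is a perfect matching.  v ∈ A \ ({v0} ∪ Q): exactly the edge of M_A.  v ∈ {v0} ∪ Q: exactly the M-edge at v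
(it is in cut B, because v = m b, b ∈ W).  v ∈ C: v ≠ t, so the N-edge at v exists, its ends are v, ν v ∈ C;
no other edge of M' at v: an M-edge in cut B at v would mean v ∈ W ∩ C = Q', its end in A in P \ Q; an
M-edge with both ends in B \ C no.  v ∈ B \ C: if v ∈ W, the M-edge at v is in cut B with end m v in A;
v ∉ Q' so m v ∈ {v0} ∪ Q (v = w, or m v ∈ P, m v ∉ P \ Q); if v ∉ W, μ v = m v ∈ B \ C (C closed under μ).
(5) e0 ∈ M: t ∈ B \ C, so as in (4) the M-edge e0 at t is in M'.  (6) Take b ∈ Q': its M-edge is in cut B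
and not in M' (one end in A and one in B, end in A not in {v0} ∪ Q).  (7) An edge of M' with both ends in
B is in M or in N. -/
namespace Pool.Agent.JKS
open Finset
open scoped Classical

theorem impr_inc_two {V E : Type} (G : MG V E) {e : E} {v w u : V} (hv : G.Inc e v) (hw : G.Inc e w)
    (hvw : v ≠ w) (hu : G.Inc e u) : u = v ∨ u = w := by
  unfold MG.Inc at *
  rcases hv with hv | hv <;> rcases hw with hw | hw <;> rcases hu with hu | hu
  · exact absurd (hv.symm.trans hw) hvw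
  · exact absurd (hv.symm.trans hw) hvw
  · exact Or.inl (hu.symm.trans hv)
  · exact Or.inr (hu.symm.trans hw)
  · exact Or.inr (hu.symm.trans hw)
  · exact Or.inl (hu.symm.trans hv)
  · exact absurd (hv.symm.trans hw) hvw
  · exact absurd (hv.symm.trans hw) hvw

theorem impr_mem_cut {V E : Type} [Fintype E] (G : MG V E) {e : E} (X : Finset V) {v w : V}
    (hv : G.Inc e v) (hw : G.Inc e w) (hvX : v ∈ X) (hwX : w ∉ X) : e ∈ G.cut X := by
  have hvw : v ≠ w := by
    rintro rfl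
    exact hwX hvX
  unfold MG.cut
  rw [Finset.mem_filter]
  refine ⟨Finset.mem_univ _, ?_⟩
  unfold MG.Inc at *
  rcases hv with hv | hv <;> rcases hw with hw | hw
  · exact absurd (hv.symm.trans hw) hvw
  · left; rw [hv, hw]; exact ⟨hvX, hwX⟩
  · right; rw [hv, hw]; exact ⟨hwX, hvX⟩
  · exact absurd (hv.symm.trans hw) hvw

theorem impr_of_mem_cut {V E : Type} [Fintype E] (G : MG V E) {e : E} (X : Finset V)
    (he : e ∈ G.cut X) : ∃ v w, G.Inc e v ∧ G.Inc e w ∧ v ∈ X ∧ w ∉ X := by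
  unfold MG.cut at he
  rw [Finset.mem_filter] at he
  rcases he.2 with ⟨h1, h2⟩ | ⟨h1, h2⟩
  · exact ⟨_, _, Or.inl rfl, Or.inr rfl, h1, h2⟩
  · exact ⟨_, _, Or.inr rfl, Or.inl rfl, h2, h1⟩

theorem improve {V E : Type} [Fintype V] [Fintype E] (G : MG V E) (r : ℕ) (hr : 2 ≤ r)
    (hdeg : ∀ v, G.deg v ≤ r) (hodd : ∀ X : Finset V, Odd X.card → r ≤ (G.cut X).card)
    (N : Finset E) (hN : G.IsMatching N) (M : Finset E) (hM : G.IsPM M) (t : V)
    (htN : ¬ G.Cov N t) (e0 : E) (he0 : e0 ∈ M) (het : G.Inc e0 t) (B : Finset V) (htB : t ∈ B)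
    (hcut : ∀ e ∈ G.cut B, e ∈ M ∧ e ∉ N) (hU : ∀ u ∈ B, u ≠ t → G.Cov N u) :
    ∃ M' : Finset E, G.IsPM M' ∧ e0 ∈ M' ∧
      (∀ e ∈ M', G.fst e ∈ B → G.snd e ∈ B → e ∈ M ∨ e ∈ N) ∧ ∃ e ∈ G.cut B, e ∉ M' := by
  -- partner functions
  have hMm : G.IsMatching M := by
    intro v e he f hf hev hfv
    exact (hM v).unique ⟨he, hev⟩ ⟨hf, hfv⟩
  obtain ⟨m, hm1, -, hm3, hm4⟩ := exists_partner G M hMm
  obtain ⟨n, hn1, hn2, hn3, hn4⟩ := exists_partner G N hN
  choose eM heM heM' using hM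
  have hcovM : ∀ v, G.Cov M v := fun v => ⟨eM v, (heM v).1, (heM v).2⟩
  have hmne : ∀ v, m v ≠ v := fun v => (hm3 v (hcovM v)).1
  have hincm : ∀ v, G.Inc (eM v) (m v) := fun v => hm4 _ (heM v).1 v (heM v).2
  have hend : ∀ v u, G.Inc (eM v) u → u = v ∨ u = m v := fun v u hu =>
    impr_inc_two G (heM v).2 (hincm v) (hmne v).symm hu
  have heq : ∀ e ∈ M, ∀ v, G.Inc e v → e = eM v := fun e he v hv => heM' v e ⟨he, hv⟩
  have hminj : ∀ a b, m a = m b → a = b := by
    intro a b hab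
    have := congrArg m hab
    rwa [hm1, hm1] at this
  have hncl : ∀ b ∈ B, n b ∈ B := by
    intro b hb
    by_cases hc : G.Cov N b
    · obtain ⟨-, e, he, h1, h2⟩ := hn3 b hc
      by_contra hnb
      exact (hcut e (impr_mem_cut G B h1 h2 hb hnb)).2 he
    · rw [hn2 b hc]; exact hb
  -- pairing
  let μ : V → V := fun v => if m v ∈ B then m v else v
  have μ1 : ∀ v, m v ∈ B → μ v = m v := fun v hv => if_pos hv
  have μ2 : ∀ v, m v ∉ B → μ v = v := fun v hv => if_neg hv
  have μ3 : ∀ v, μ v = v ↔ m v ∉ B := by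
    intro v
    constructor
    · intro h hv
      rw [μ1 v hv] at h
      exact hmne v h
    · exact μ2 v
  obtain ⟨w, πW, hwB, hμw, hπW, hQC⟩ := pairing B μ n
    (by
      intro b hb
      by_cases h : m b ∈ B
      · rw [μ1 b h]
        refine ⟨h, ?_⟩
        have h2 : m (m b) ∈ B := by rw [hm1]; exact hb
        rw [μ1 _ h2, hm1]
      · rw [μ2 b h, μ2 b h]
        exact ⟨hb, rfl⟩)
    (fun b hb => ⟨hncl b hb, hn1 b⟩) t htB (hn2 t htN)
    (by
      intro b hb hnb
      by_contra hne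
      exact (hn3 b (hU b hb hne)).1 hnb)
  have hmw : m w ∉ B := (μ3 w).1 hμw
  let W : Finset V := B.filter (fun b => m b ∉ B)
  have hW : ∀ b, b ∈ W ↔ (b ∈ B ∧ m b ∉ B) := fun b => by simp [W]
  have hwW : w ∈ W := (hW w).2 ⟨hwB, hmw⟩
  have hπW' : ∀ b ∈ W, b ≠ w → πW b ∈ W ∧ πW b ≠ w ∧ πW b ≠ b ∧ πW (πW b) = b := by
    intro b hb hbw
    obtain ⟨h1, h2, h3, h4, h5⟩ := hπW b ((hW b).1 hb).1 ((μ3 b).2 ((hW b).1 hb).2) hbw
    exact ⟨(hW _).2 ⟨h1, (μ3 _).1 h2⟩, h3, h4, h5⟩
  let v0 : V := m w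
  let P : Finset V := (W.erase w).image m
  let π : V → V := fun v => m (πW (m v))
  have hP : ∀ v, v ∈ P ↔ (m v ∈ W ∧ m v ≠ w) := by
    intro v
    simp only [P, Finset.mem_image, Finset.mem_erase]
    constructor
    · rintro ⟨b, ⟨hb1, hb2⟩, rfl⟩
      rw [hm1]
      exact ⟨hb2, hb1⟩
    · rintro ⟨h1, h2⟩
      exact ⟨m v, ⟨h2, h1⟩, hm1 v⟩
  have hPB : ∀ v ∈ P, v ∉ B := by
    intro v hv
    have := ((hW _).1 ((hP v).1 hv).1).2
    rwa [hm1] at this
  have hv0P : v0 ∉ P := by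
    intro h
    exact ((hP _).1 h).2 (hm1 w)
  have hins : ∀ v, v ∈ insert v0 P ↔ m v ∈ W := by
    intro v
    rw [Finset.mem_insert, hP]
    constructor
    · rintro (h | h)
      · rw [h]
        show m (m w) ∈ W
        rw [hm1]; exact hwW
      · exact h.1
    · intro h
      by_cases h2 : m v = w
      · left
        show v = m w
        rw [← h2, hm1]
      · exact Or.inr ⟨h, h2⟩
  have hcutc : G.cut (Finset.univ \ B) = G.cut B := by
    ext e
    unfold MG.cut
    simp only [Finset.mem_filter, Finset.mem_univ, true_and, Finset.mem_sdiff]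
    tauto
  have hcutW : ∀ b ∈ W, eM b ∈ G.cut B := by
    intro b hb
    exact impr_mem_cut G B (heM b).2 (hincm b) ((hW b).1 hb).1 ((hW b).1 hb).2
  have hπP : ∀ v ∈ P, π v ∈ P ∧ π (π v) = v ∧ π v ≠ v := by
    intro v hv
    obtain ⟨h1, h2⟩ := (hP v).1 hv
    obtain ⟨h3, h4, h5, h6⟩ := hπW' (m v) h1 h2
    refine ⟨?_, ?_, ?_⟩
    · rw [hP]
      show m (m (πW (m v))) ∈ W ∧ m (m (πW (m v))) ≠ w
      rw [hm1]
      exact ⟨h3, h4⟩
    · show m (πW (m (m (πW (m v))))) = v
      rw [hm1, h6, hm1]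
    · intro h
      apply h5
      have h7 : m (πW (m v)) = v := h
      have := congrArg m h7
      rwa [hm1] at this
  obtain ⟨Q, hQP, hQπ, hQF⟩ := lemL G r hdeg hodd (Finset.univ \ B) v0
    (by simp only [Finset.mem_sdiff, Finset.mem_univ, true_and]; exact hmw) P
    (by
      intro v hv
      rw [Finset.mem_erase, Finset.mem_sdiff]
      exact ⟨fun h => hv0P (h ▸ hv), Finset.mem_univ _, hPB v hv⟩) π hπP
    (by
      intro v hv
      rw [hcutc]
      have h1 := (hins v).1 hv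
      refine ⟨eM (m v), hcutW _ h1, ?_⟩
      have := hincm (m v)
      rwa [hm1] at this)
    (by
      refine ⟨m, ?_⟩
      intro v hv
      rw [Finset.mem_sdiff, Finset.mem_sdiff, hins] at hv
      obtain ⟨⟨-, hvB⟩, hvW⟩ := hv
      refine ⟨?_, hm1 v, ?_⟩
      · rw [Finset.mem_sdiff, Finset.mem_sdiff, hins, hm1]
        refine ⟨⟨Finset.mem_univ _, ?_⟩, fun h => hvB ((hW v).1 h).1⟩
        intro h
        apply hvW
        rw [hW, hm1]
        exact ⟨h, hvB⟩
      · refine ⟨eM v, ?_⟩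
        rcases (heM v).2 with h | h
        · rcases hincm v with h' | h'
          · exact absurd (h'.symm.trans h) (hmne v)
          · exact Or.inl ⟨h, h'⟩
        · rcases hincm v with h' | h'
          · exact Or.inr ⟨h', h⟩
          · exact absurd (h'.symm.trans h) (hmne v))
    (by
      rw [hcutc]
      have h1 : G.cut B ⊆ W.image eM := by
        intro e he
        obtain ⟨b, a, hb, ha, hbB, haB⟩ := impr_of_mem_cut G B he
        have heb : e = eM b := heq e (hcut e he).1 b hb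
        have hab : a = m b := by
          rcases hend b a (heb ▸ ha) with h | h
          · exact absurd (h ▸ hbB) haB
          · exact h
        rw [Finset.mem_image]
        exact ⟨b, (hW b).2 ⟨hbB, hab ▸ haB⟩, heb.symm⟩
      have h2 : (G.cut B).card ≤ W.card := (Finset.card_le_card h1).trans Finset.card_image_le
      have h3 : P.card = (W.erase w).card :=
        Finset.card_image_of_injective _ (fun a b hab => hminj a b hab)
      have h4 : (W.erase w).card + 1 = W.card := Finset.card_erase_add_one hwW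
      omega)
  obtain ⟨MA, hMA1, hMA2⟩ := edges_of_feas G _ hQF
  have hQP' : Q ⊆ P := hQP.1
  have hMA1' : ∀ e ∈ MA, ∀ u, G.Inc e u → u ∉ B ∧ u ∉ insert v0 Q := by
    intro e he u hu
    obtain ⟨h1, h2⟩ := hMA1 e he
    rw [Finset.mem_sdiff, Finset.mem_sdiff] at h1 h2
    rcases hu with hu | hu
    · rw [hu] at h1; exact ⟨h1.1.2, h1.2⟩
    · rw [hu] at h2; exact ⟨h2.1.2, h2.2⟩
  have hQB : ∀ v ∈ insert v0 Q, v ∉ B ∧ m v ∈ W := by
    intro v hv
    have h1 : v ∈ insert v0 P := Finset.insert_subset_insert _ hQP' hv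
    refine ⟨?_, (hins v).1 h1⟩
    rcases Finset.mem_insert.1 h1 with h | h
    · rw [h]; exact hmw
    · exact hPB v h
  -- Q'
  let Q' : Finset V := (P \ Q).image m
  have hQ' : ∀ b, b ∈ Q' ↔ (m b ∈ P ∧ m b ∉ Q) := by
    intro b
    simp only [Q', Finset.mem_image, Finset.mem_sdiff]
    constructor
    · rintro ⟨p, hp, rfl⟩
      rw [hm1]; exact hp
    · intro h
      exact ⟨m b, h, hm1 b⟩
  have hQ'W : ∀ b ∈ Q', b ∈ W ∧ b ≠ w := by
    intro b hb
    have := (hP _).1 ((hQ' b).1 hb).1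
    rwa [hm1] at this
  obtain ⟨C, hCB, hCcl, htC, hCQ⟩ := hQC Q'
    (by
      intro b hb
      obtain ⟨h1, h2⟩ := hQ'W b hb
      refine ⟨((hW b).1 h1).1, (μ3 b).2 ((hW b).1 h1).2, h2, ?_⟩
      obtain ⟨h3, h4⟩ := (hQ' b).1 hb
      obtain ⟨h5, h6, h7⟩ := hπP (m b) h3
      have h8 : m (πW b) = π (m b) := by
        show m (πW b) = m (πW (m (m b)))
        rw [hm1]
      rw [hQ', h8]
      refine ⟨h5, fun h => h4 ?_⟩
      have := hQπ _ h
      rwa [h6] at this)
  have hCW : ∀ b ∈ W, (b ∈ C ↔ b ∈ Q') := fun b hb =>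
    hCQ b ((hW b).1 hb).1 ((μ3 b).2 ((hW b).1 hb).2)
  -- the new matching
  let M' : Finset E := MA ∪ (M.filter (fun e => ∃ v ∈ insert v0 Q, G.Inc e v) ∪
    (M.filter (fun e => ∀ u, G.Inc e u → u ∈ B ∧ u ∉ C) ∪ N.filter (fun e => ∀ u, G.Inc e u → u ∈ C)))
  have hM' : ∀ e, e ∈ M' ↔ (e ∈ MA ∨ (e ∈ M ∧ ∃ v ∈ insert v0 Q, G.Inc e v) ∨
      (e ∈ M ∧ ∀ u, G.Inc e u → u ∈ B ∧ u ∉ C) ∨ (e ∈ N ∧ ∀ u, G.Inc e u → u ∈ C)) := by
    intro e
    simp only [M', Finset.mem_union, Finset.mem_filter]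
  -- the ends of an edge of the second kind
  have h2k : ∀ e ∈ M, (∃ v ∈ insert v0 Q, G.Inc e v) → ∀ u, G.Inc e u →
      (u ∈ insert v0 Q ∨ (u ∈ B ∧ u ∉ C)) := by
    rintro e he ⟨v, hv, hev⟩ u hu
    rw [heq e he v hev] at hu
    rcases hend v u hu with h | h
    · left; rw [h]; exact hv
    · right
      subst h
      have h1 := (hQB v hv).2
      refine ⟨((hW _).1 h1).1, ?_⟩
      rw [hCW _ h1, hQ', hm1]
      rintro ⟨h2, h3⟩
      rcases Finset.mem_insert.1 hv with h | h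
      · exact hv0P (h ▸ h2)
      · exact h3 h
  have hBC : ∀ v ∈ B, v ∉ C → eM v ∈ M' := by
    intro v hv hvC
    rw [hM']
    by_cases hmB : m v ∈ B
    · right; right; left
      refine ⟨(heM v).1, ?_⟩
      intro u hu
      rcases hend v u hu with h | h
      · rw [h]; exact ⟨hv, hvC⟩
      · rw [h]
        refine ⟨hmB, fun h2 => hvC ?_⟩
        have h3 := (hCcl _ h2).1
        rwa [μ1 (m v) (by rw [hm1]; exact hv), hm1] at h3
    · right; left
      refine ⟨(heM v).1, m v, ?_, hincm v⟩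
      have hvW : v ∈ W := (hW v).2 ⟨hv, hmB⟩
      rw [hCW v hvW, hQ'] at hvC
      rw [Finset.mem_insert]
      by_cases h1 : m v ∈ P
      · right
        by_contra h2
        exact hvC ⟨h1, h2⟩
      · left
        by_contra h2
        apply h1
        rw [hP, hm1]
        refine ⟨hvW, fun h3 => h2 ?_⟩
        rw [h3]
  refine ⟨M', ?_, ?_, ?_, ?_⟩
  · intro v
    by_cases hvB : v ∈ B
    · by_cases hvC : v ∈ C
      · have hvt : v ≠ t := fun h => htC (h ▸ hvC)
        obtain ⟨hne, e, he, h1, h2⟩ := hn3 v (hU v hvB hvt)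
        refine ⟨e, ⟨?_, h1⟩, ?_⟩
        · rw [hM']
          right; right; right
          refine ⟨he, ?_⟩
          intro u hu
          rcases impr_inc_two G h1 h2 hne.symm hu with h | h
          · rw [h]; exact hvC
          · rw [h]; exact (hCcl v hvC).2
        · rintro f ⟨hf, hfv⟩
          rw [hM'] at hf
          rcases hf with hf | ⟨hf, hf'⟩ | ⟨hf, hf'⟩ | ⟨hf, hf'⟩
          · exact absurd hvB (hMA1' f hf v hfv).1
          · rcases h2k f hf hf' v hfv with h | h
            · exact absurd hvB (hQB v h).1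
            · exact absurd hvC h.2
          · exact absurd hvC (hf' v hfv).2
          · exact hN v f hf e he hfv h1
      · refine ⟨eM v, ⟨hBC v hvB hvC, (heM v).2⟩, ?_⟩
        rintro f ⟨hf, hfv⟩
        rw [hM'] at hf
        rcases hf with hf | ⟨hf, hf'⟩ | ⟨hf, hf'⟩ | ⟨hf, hf'⟩
        · exact absurd hvB (hMA1' f hf v hfv).1
        · exact heq f hf v hfv
        · exact heq f hf v hfv
        · exact absurd (hf' v hfv) hvC
    · by_cases hvQ : v ∈ insert v0 Q
      · refine ⟨eM v, ⟨?_, (heM v).2⟩, ?_⟩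
        · rw [hM']
          exact Or.inr (Or.inl ⟨(heM v).1, v, hvQ, (heM v).2⟩)
        · rintro f ⟨hf, hfv⟩
          rw [hM'] at hf
          rcases hf with hf | ⟨hf, hf'⟩ | ⟨hf, hf'⟩ | ⟨hf, hf'⟩
          · exact absurd hvQ (hMA1' f hf v hfv).2
          · exact heq f hf v hfv
          · exact heq f hf v hfv
          · exact absurd (hCB (hf' v hfv)) hvB
      · obtain ⟨e, ⟨he, hev⟩, huniq⟩ := hMA2 v
          (by
            rw [Finset.mem_sdiff, Finset.mem_sdiff]
            exact ⟨⟨Finset.mem_univ _, hvB⟩, hvQ⟩)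
        refine ⟨e, ⟨(hM' e).2 (Or.inl he), hev⟩, ?_⟩
        rintro f ⟨hf, hfv⟩
        rw [hM'] at hf
        rcases hf with hf | ⟨hf, hf'⟩ | ⟨hf, hf'⟩ | ⟨hf, hf'⟩
        · exact huniq f ⟨hf, hfv⟩
        · rcases h2k f hf hf' v hfv with h | h
          · exact absurd h hvQ
          · exact absurd h.1 hvB
        · exact absurd (hf' v hfv).1 hvB
        · exact absurd (hCB (hf' v hfv)) hvB
  · rw [heq e0 he0 t het]
    exact hBC t htB htC
  · intro e he h1 h2
    rw [hM'] at he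
    rcases he with he | ⟨he, -⟩ | ⟨he, -⟩ | ⟨he, -⟩
    · exact absurd h1 (hMA1' e he _ (Or.inl rfl)).1
    · exact Or.inl he
    · exact Or.inl he
    · exact Or.inr he
  · obtain ⟨p, hpP, hpQ⟩ := Finset.exists_of_ssubset hQP
    have hmp : m p ∈ Q' := by
      rw [hQ', hm1]
      exact ⟨hpP, hpQ⟩
    have hmpW := (hQ'W _ hmp).1
    have hmpC : m p ∈ C := (hCW _ hmpW).2 hmp
    refine ⟨eM (m p), hcutW _ hmpW, ?_⟩
    rw [hM']
    have hinc1 := (heM (m p)).2
    have hinc2 := hincm (m p)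
    rw [hm1] at hinc2
    have hmpB := ((hW _).1 hmpW).1
    rintro (he | ⟨he, he'⟩ | ⟨he, he'⟩ | ⟨he, he'⟩)
    · exact absurd hmpB (hMA1' _ he _ hinc1).1
    · rcases h2k _ he he' _ hinc1 with h | h
      · exact absurd hmpB (hQB _ h).1
      · exact h.2 hmpC
    · exact (he' _ hinc1).2 hmpC
    · exact absurd (hCB (he' _ hinc2)) (hPB p hpP)

end Pool.Agent.JKS
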