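import Pool.Agent.JKS.Cnt
import Pool.Agent.JKS.Exit
import Pool.Agent.JKS.TutB
/-! LemL (4): the key lemma.

`X` a vertex set, `v0 ∈ X`, `P ⊆ X \ {v0}`, π a fixed point free involution of `P`, every vertex of
`P ∪ {v0}` has an edge to the complement of `X`; `X \ ({v0} ∪ P)` has a perfect matching and
|cut X| < |P| + r.  CLAIM: for some π-closed PROPER subset Q of P, `X \ ({v0} ∪ Q)` has a perfect matching.

PROOF.  Strong induction on |X|.  Assume the claim is false.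
(0) Let σ0 be the matching of X \ ({v0} ∪ P); put Y = X.erase v0 and μ v = π v for v ∈ P, μ v = σ0 v
else: a fixed point free involution of Y (adjacent vertices are different: `G.ne`), so |Y| is even
(`even_of_invol`) and |X| is odd, |cut X| ≥ r; so P ≠ ∅.  Pick p ∈ P, q = π p.
(1) R v w := G.Adj v w ∨ (v ∈ P ∧ v ≠ p ∧ v ≠ q ∧ w = π v) : symmetric, irreflexive.  `tutte_bridge Y R`.
If there is σ: Q := {v ∈ P | v ≠ p ∧ v ≠ q ∧ σ v = π v} is π-closed (σ, π involutions), proper (p ∉ Q), and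
σ is a perfect matching of X \ ({v0} ∪ Q) = Y \ Q (for v ∈ Y \ Q, R v (σ v) must be G.Adj v (σ v); σ v ∉ Q
since otherwise v = σ (σ v) = π (σ v) ∈ Q): contradiction.  So we get S, K with |S| < |K|, and by parity
(|Y| = |S| + Σ|k| + |rest|, |Y|, |rest| even, each |k| odd) |S| + 2 ≤ |K|.
(2) `exits` with this μ, p, q: its hypothesis hcl: v ∈ k, μ v ∉ S, μ v ∉ k: then not R v (μ v) (closedness), so
not adjacent, so v ∈ P and μ v = π v, so v = p or v = q.  Get x.
(3) For k ∈ K put P_k := (P ∩ k) \ {x k}.  Then: x k ∈ k; P_k ⊆ k.erase (x k); π maps P_k to P_k (for v ∈ P_k,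
π v = μ v ∈ k, in P, and π v ≠ x k because μ (x k) ∉ k); every vertex of P_k ∪ {x k} has an edge of
cut k: for v ∈ P ∩ k the given edge of cut X at v (its other end is outside X, hence outside k); if
x k ∉ P, then x k ≠ p, q so μ (x k) ∈ S, and x k is adjacent to μ (x k) ∉ k.  k \ ({x k} ∪ P_k) has the perfect
matching σ0 (closed under μ; not in P).  CLAIM (3'): |cut k| ≥ |P_k| + r.  Otherwise the induction
hypothesis (|k| < |X| since k ⊆ Y) gives π-closed Q_k ⊊ P_k with a perfect matching τ of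
k \ ({x k} ∪ Q_k); then Q := (P \ P_k) ∪ Q_k is π-closed, proper, and X \ ({v0} ∪ Q) has the perfect matching τ on
k \ ({x k} ∪ Q_k), σ0 elsewhere (elements of X \ ({v0} ∪ Q) outside k \ ({x k} ∪ Q_k): they are not in P
[if v ∈ P, v ∉ Q then v ∈ P_k \ Q_k]; v ∉ k or v = x k ∉ P; their σ0-partner is not in k \ {x k}, as μ maps
k \ {x k} into k, and not x k → fine): contradiction.
(4) COUNT.  `count` (its hypothesis hcl from R ⊇ Adj) with out X v ≥ 1 for v ∈ P ∪ {v0}: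
Σ_k |cut k| + 2 (1 + |P ∩ S|) + |P ∩ rest| ≤ r (|S|+1) + |cut X|.
Σ_k (|P_k| + r) ≤ Σ_k |cut k|, |K| = |S| + 2,
Σ_k |P_k| = |P ∩ T| - #{k | x k ∈ P}, and #{k ∈ K | x k ∈ P} ≤ 2 + |P ∩ S| (the k with x k = p, with x k = q, and
those with μ (x k) ∈ S, x k ∈ P: then μ (x k) = π (x k) ∈ P ∩ S and k ↦ μ (x k) is injective);
|P| = |P ∩ S| + |P ∩ T| + |P ∩ rest| (v0 ∉ P).  So
r(|S|+2) + |P| - |P∩S| - |P∩rest| - 2 - |P∩S| + 2 + 2|P∩S| + |P∩rest| ≤ r(|S|+1) + |cut X|, i.e.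
|P| + r ≤ |cut X|: contradiction. -/
namespace Pool.Agent.JKS
open Finset
open scoped Classical

theorem LemL_adj_ne {V E : Type} (G : MG V E) {v w : V} (h : G.Adj v w) : v ≠ w := by
  rintro rfl
  obtain ⟨e, ⟨h1, h2⟩ | ⟨h1, h2⟩⟩ := h
  · exact G.ne e (h1.trans h2.symm)
  · exact G.ne e (h1.trans h2.symm)

theorem LemL_adj_symm {V E : Type} (G : MG V E) {v w : V} (h : G.Adj v w) : G.Adj w v := by
  obtain ⟨e, h | h⟩ := h
  · exact ⟨e, Or.inr h⟩
  · exact ⟨e, Or.inl h⟩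

theorem LemL_mem_cut {V E : Type} [Fintype E] (G : MG V E) {X : Finset V} {e : E} :
    e ∈ G.cut X ↔ (G.fst e ∈ X ∧ G.snd e ∉ X) ∨ (G.fst e ∉ X ∧ G.snd e ∈ X) := by
  unfold MG.cut
  rw [Finset.mem_filter]
  exact ⟨fun h => h.2, fun h => ⟨Finset.mem_univ _, h⟩⟩

/-- an edge of `cut X` at `v ∈ k ⊆ X` is an edge of `cut k` -/
theorem LemL_cut_sub {V E : Type} [Fintype E] (G : MG V E) {X k : Finset V} (hk : k ⊆ X) {e : E} {v : V}
    (he : e ∈ G.cut X) (hi : G.Inc e v) (hv : v ∈ k) : e ∈ G.cut k := by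
  rw [LemL_mem_cut] at he ⊢
  rcases hi with rfl | rfl
  · rcases he with h | h
    · exact Or.inl ⟨hv, fun h1 => h.2 (hk h1)⟩
    · exact absurd (hk hv) h.1
  · rcases he with h | h
    · exact absurd (hk hv) h.2
    · exact Or.inr ⟨fun h1 => h.1 (hk h1), hv⟩

theorem LemL_adj_cut {V E : Type} [Fintype E] (G : MG V E) {k : Finset V} {v w : V}
    (h : G.Adj v w) (hv : v ∈ k) (hw : w ∉ k) : ∃ e ∈ G.cut k, G.Inc e v := by
  obtain ⟨e, ⟨h1, h2⟩ | ⟨h1, h2⟩⟩ := h
  · exact ⟨e, (LemL_mem_cut G).2 (Or.inl ⟨h1 ▸ hv, h2 ▸ hw⟩), Or.inl h1⟩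
  · exact ⟨e, (LemL_mem_cut G).2 (Or.inr ⟨h1 ▸ hw, h2 ▸ hv⟩), Or.inr h2⟩

theorem LemL_out {V E : Type} [Fintype E] (G : MG V E) {X : Finset V} {v : V}
    (h : ∃ e ∈ G.cut X, G.Inc e v) : 1 ≤ G.out X v := by
  obtain ⟨e, he, hi⟩ := h
  unfold MG.out
  exact Finset.card_pos.2 ⟨e, Finset.mem_filter.2 ⟨he, hi⟩⟩

/-- step (3) -/
theorem LemL_glue {V E : Type} [Fintype V] [Fintype E] (G : MG V E)
    (X : Finset V) (v0 : V) (P : Finset V) (π σ0 μ : V → V)
    (hπ : ∀ v ∈ P, π v ∈ P ∧ π (π v) = v ∧ π v ≠ v)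
    (hσ0 : ∀ v ∈ X \ insert v0 P, σ0 v ∈ X \ insert v0 P ∧ σ0 (σ0 v) = v ∧ G.Adj v (σ0 v))
    (hμ1 : ∀ v ∈ P, μ v = π v) (hμ2 : ∀ v, v ∉ P → μ v = σ0 v)
    (k : Finset V) (hk : k ⊆ X.erase v0) (x : V) (hx : x ∈ k) (hxk : μ x ∉ k)
    (hxc : ∀ v ∈ k, v ≠ x → μ v ∈ k) (Qk : Finset V) (hQk : Qk ⊂ (P ∩ k).erase x)
    (hQc : ∀ v ∈ Qk, π v ∈ Qk) (hF : G.Feas (k \ insert x Qk)) :
    ∃ Q : Finset V, Q ⊂ P ∧ (∀ v ∈ Q, π v ∈ Q) ∧ G.Feas (X \ insert v0 Q) := by
  obtain ⟨τ, hτ⟩ := hF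
  have hmP : ∀ {v}, v ∈ (P ∩ k).erase x ↔ v ∈ P ∧ v ∈ k ∧ v ≠ x := by
    intro v
    rw [Finset.mem_erase, Finset.mem_inter]
    tauto
  have hmD : ∀ {v}, v ∈ k \ insert x Qk ↔ v ∈ k ∧ v ≠ x ∧ v ∉ Qk := by
    intro v
    rw [Finset.mem_sdiff, Finset.mem_insert]
    tauto
  have hmQ : ∀ {v}, v ∈ (P \ (P ∩ k).erase x) ∪ Qk ↔ (v ∈ P ∧ ¬ (v ∈ k ∧ v ≠ x)) ∨ v ∈ Qk := by
    intro v
    rw [Finset.mem_union, Finset.mem_sdiff, hmP]
    tauto
  have hQP : ∀ {v}, v ∈ Qk → v ∈ P ∧ v ∈ k ∧ v ≠ x := fun {v} hv => hmP.1 (hQk.1 hv)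
  have hmX : ∀ {v}, v ∈ X \ insert v0 P ↔ v ∈ X ∧ v ≠ v0 ∧ v ∉ P := by
    intro v
    rw [Finset.mem_sdiff, Finset.mem_insert]
    tauto
  have hkX : ∀ {v}, v ∈ k → v ∈ X ∧ v ≠ v0 := by
    intro v hv
    have := hk hv
    rw [Finset.mem_erase] at this
    exact ⟨this.2, this.1⟩
  refine ⟨(P \ (P ∩ k).erase x) ∪ Qk, ?_, ?_, ?_⟩
  · refine ⟨fun v hv => ?_, fun hsub => ?_⟩
    · rcases hmQ.1 hv with h | h
      · exact h.1
      · exact (hQP h).1
    · obtain ⟨u, hu1, hu2⟩ := Finset.exists_of_ssubset hQk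
      have hu := hmP.1 hu1
      rcases hmQ.1 (hsub hu.1) with h | h
      · exact h.2 hu.2
      · exact hu2 h
  · intro v hv
    rcases hmQ.1 hv with h | h
    · apply hmQ.2
      left
      refine ⟨(hπ v h.1).1, ?_⟩
      rintro ⟨h1, h2⟩
      apply h.2
      have h3 := hxc _ h1 h2
      rw [hμ1 _ (hπ v h.1).1, (hπ v h.1).2.1] at h3
      refine ⟨h3, ?_⟩
      rintro rfl
      apply hxk
      rw [hμ1 _ h.1]
      exact h1
    · exact hmQ.2 (Or.inr (hQc v h))
  · refine ⟨fun v => if v ∈ k \ insert x Qk then τ v else σ0 v, ?_⟩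
    intro v hv
    rw [Finset.mem_sdiff, Finset.mem_insert, not_or, hmQ, not_or] at hv
    obtain ⟨hvX, hv0, hvQ, hvQk⟩ := hv
    by_cases hD : v ∈ k \ insert x Qk
    · obtain ⟨h1, h2, h3⟩ := hτ v hD
      simp only [if_pos hD, if_pos h1]
      refine ⟨?_, h2, h3⟩
      have h4 := hmD.1 h1
      rw [Finset.mem_sdiff, Finset.mem_insert, not_or, hmQ, not_or]
      refine ⟨(hkX h4.1).1, (hkX h4.1).2, ?_, h4.2.2⟩
      rintro ⟨-, h5⟩
      exact h5 ⟨h4.1, h4.2.1⟩
    · have hvP : v ∉ P := by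
        intro hvP
        apply hD
        have : v ∈ k ∧ v ≠ x := by
          by_contra h
          exact hvQ ⟨hvP, h⟩
        exact hmD.2 ⟨this.1, this.2, hvQk⟩
      obtain ⟨h1, h2, h3⟩ := hσ0 v (hmX.2 ⟨hvX, hv0, hvP⟩)
      have h4 := hmX.1 h1
      have hD' : σ0 v ∉ k \ insert x Qk := by
        intro h5
        have h6 := hmD.1 h5
        have h7 := hxc _ h6.1 h6.2.1
        rw [hμ2 _ h4.2.2, h2] at h7
        apply hD
        refine hmD.2 ⟨h7, ?_, hvQk⟩
        rintro rfl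
        apply hxk
        rw [hμ2 _ hvP]
        exact h6.1
      simp only [if_neg hD, if_neg hD']
      refine ⟨?_, h2, h3⟩
      rw [Finset.mem_sdiff, Finset.mem_insert, not_or, hmQ, not_or]
      refine ⟨h4.1, h4.2.1, ?_, ?_⟩
      · rintro ⟨h5, -⟩
        exact h4.2.2 h5
      · intro h5
        exact h4.2.2 (hQP h5).1

/-- the counting at the end -/
theorem LemL_count {V : Type} [Fintype V] (Y S P : Finset V) (hS : S ⊆ Y) (hP : P ⊆ Y)
    (μ : V → V) (hμ : ∀ v ∈ Y, μ v ∈ Y ∧ μ (μ v) = v ∧ μ v ≠ v) (hμP : ∀ v ∈ P, μ v ∈ P)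
    (p q : V) (hpq : μ p = q) (hqp : μ q = p)
    (K : Finset (Finset V)) (hK : ∀ k ∈ K, k ⊆ Y \ S)
    (hdis : ∀ k ∈ K, ∀ l ∈ K, k ≠ l → Disjoint k l) (x : Finset V → V)
    (hx : ∀ k ∈ K, x k ∈ k) (hxe : ∀ k ∈ K, μ (x k) ∈ S ∨ x k = p ∨ x k = q) :
    P.card ≤ ∑ k ∈ K, ((P ∩ k).erase (x k)).card + 2 + 2 * (P ∩ S).card +
      (P ∩ ((Y \ S) \ K.biUnion id)).card := by
  have hxinj : ∀ k ∈ K, ∀ l ∈ K, x k = x l → k = l := by
    intro k hk l hl h
    by_contra hne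
    exact Finset.disjoint_left.1 (hdis k hk l hl hne) (hx k hk) (h ▸ hx l hl)
  have hxY : ∀ k ∈ K, x k ∈ Y := fun k hk => (Finset.mem_sdiff.1 (hK k hk (hx k hk))).1
  -- number of the `k` with `x k ∈ P`
  have h1 : (K.filter (fun k => x k ∈ P)).card ≤ (insert p (insert q (P ∩ S))).card := by
    apply Finset.card_le_card_of_injOn (fun k => μ (x k))
    · intro k hk
      have hk' := Finset.mem_filter.1 hk
      show μ (x k) ∈ insert p (insert q (P ∩ S))
      rw [Finset.mem_insert, Finset.mem_insert, Finset.mem_inter]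
      rcases hxe k hk'.1 with h | h | h
      · exact Or.inr (Or.inr ⟨hμP _ hk'.2, h⟩)
      · exact Or.inr (Or.inl (by rw [h, hpq]))
      · exact Or.inl (by rw [h, hqp])
    · intro k hk l hl h
      have hk' := (Finset.mem_filter.1 hk).1
      have hl' := (Finset.mem_filter.1 hl).1
      apply hxinj k hk' l hl'
      have h2 : μ (μ (x k)) = μ (μ (x l)) := congrArg μ h
      rw [(hμ _ (hxY k hk')).2.1, (hμ _ (hxY l hl')).2.1] at h2
      exact h2
  have h2 : (insert p (insert q (P ∩ S))).card ≤ (P ∩ S).card + 2 :=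
    (Finset.card_insert_le _ _).trans (Nat.succ_le_succ (Finset.card_insert_le _ _))
  have h3 : ∀ k ∈ K, (P ∩ k).card = ((P ∩ k).erase (x k)).card + if x k ∈ P then 1 else 0 := by
    intro k hk
    by_cases h : x k ∈ P
    · rw [if_pos h, Finset.card_erase_add_one (Finset.mem_inter.2 ⟨h, hx k hk⟩)]
    · rw [if_neg h, add_zero, Finset.erase_eq_of_notMem]
      intro h'
      exact h (Finset.mem_inter.1 h').1
  have h4 : ∑ k ∈ K, (P ∩ k).card = ∑ k ∈ K, ((P ∩ k).erase (x k)).card +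
      (K.filter (fun k => x k ∈ P)).card := by
    rw [Finset.sum_congr rfl h3, Finset.sum_add_distrib, Finset.card_filter]
  have h5 : (P ∩ K.biUnion id).card = ∑ k ∈ K, (P ∩ k).card := by
    have e : P ∩ K.biUnion id = K.biUnion (fun k => P ∩ k) := by
      ext v
      simp only [Finset.mem_inter, Finset.mem_biUnion, id]
      constructor
      · rintro ⟨h, k, hk, hv⟩
        exact ⟨k, hk, h, hv⟩
      · rintro ⟨k, hk, h, hv⟩
        exact ⟨h, k, hk, hv⟩
    rw [e, Finset.card_biUnion]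
    intro k hk l hl hne
    exact (hdis k hk l hl hne).mono Finset.inter_subset_right Finset.inter_subset_right
  have h6 : P.card ≤ (P ∩ S).card + (P ∩ K.biUnion id).card +
      (P ∩ ((Y \ S) \ K.biUnion id)).card := by
    have hsub : P ⊆ ((P ∩ S) ∪ (P ∩ K.biUnion id)) ∪ (P ∩ ((Y \ S) \ K.biUnion id)) := by
      intro v hv
      simp only [Finset.mem_union, Finset.mem_inter, Finset.mem_sdiff]
      have := hP hv
      tauto
    exact (Finset.card_le_card hsub).trans ((Finset.card_union_le _ _).trans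
      (Nat.add_le_add_right (Finset.card_union_le _ _) _))
  omega

theorem LemL_parity {V : Type} [Fintype V] (Y S : Finset V) (hS : S ⊆ Y) (hY : Even Y.card)
    (K : Finset (Finset V)) (hK : ∀ k ∈ K, k ⊆ Y \ S ∧ Odd k.card)
    (hdis : ∀ k ∈ K, ∀ l ∈ K, k ≠ l → Disjoint k l)
    (heven : Even ((Y \ S) \ K.biUnion id).card) (hlt : S.card < K.card) :
    S.card + 2 ≤ K.card := by
  have h1 : (Y \ S).card + S.card = Y.card := Finset.card_sdiff_add_card_eq_card hS
  have hT : K.biUnion id ⊆ Y \ S := by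
    intro v hv
    obtain ⟨k, hk, hv⟩ := Finset.mem_biUnion.1 hv
    exact (hK k hk).1 hv
  have h2 : ((Y \ S) \ K.biUnion id).card + (K.biUnion id).card = (Y \ S).card :=
    Finset.card_sdiff_add_card_eq_card hT
  have h3 : (K.biUnion id).card = ∑ k ∈ K, k.card := by
    rw [Finset.card_biUnion]
    · rfl
    · intro k hk l hl hne
      exact hdis k hk l hl hne
  have h4 : Even (∑ k ∈ K, k.card + K.card) := by
    have e : ∑ k ∈ K, k.card + K.card = ∑ k ∈ K, (k.card + 1) := by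
      rw [Finset.sum_add_distrib, Finset.sum_const, smul_eq_mul, mul_one]
    rw [e]
    apply Finset.even_sum
    intro k hk
    exact (hK k hk).2.add_one
  obtain ⟨a, ha⟩ := hY
  obtain ⟨b, hb⟩ := heven
  obtain ⟨c, hc⟩ := h4
  omega

theorem lemL {V E : Type} [Fintype V] [Fintype E] (G : MG V E) (r : ℕ)
    (hdeg : ∀ v, G.deg v ≤ r) (hodd : ∀ X : Finset V, Odd X.card → r ≤ (G.cut X).card)
    (X : Finset V) (v0 : V) (hv0 : v0 ∈ X) (P : Finset V) (hP : P ⊆ X.erase v0) (π : V → V)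
    (hπ : ∀ v ∈ P, π v ∈ P ∧ π (π v) = v ∧ π v ≠ v)
    (hout : ∀ v ∈ insert v0 P, ∃ e ∈ G.cut X, G.Inc e v)
    (hF : G.Feas (X \ insert v0 P)) (hsm : (G.cut X).card < P.card + r) :
    ∃ Q : Finset V, Q ⊂ P ∧ (∀ v ∈ Q, π v ∈ Q) ∧ G.Feas (X \ insert v0 Q) := by
  induction hn : X.card using Nat.strong_induction_on generalizing X v0 P with
  | _ n ih =>
  obtain ⟨σ0, hσ0⟩ := hF
  have hmX : ∀ {v}, v ∈ X \ insert v0 P ↔ v ∈ X ∧ v ≠ v0 ∧ v ∉ P := by
    intro v
    rw [Finset.mem_sdiff, Finset.mem_insert]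
    tauto
  have hPX : ∀ {v}, v ∈ P → v ∈ X ∧ v ≠ v0 := by
    intro v hv
    have := hP hv
    rw [Finset.mem_erase] at this
    exact ⟨this.2, this.1⟩
  let μ : V → V := fun v => if v ∈ P then π v else σ0 v
  have hμ1 : ∀ v ∈ P, μ v = π v := fun v hv => if_pos hv
  have hμ2 : ∀ v, v ∉ P → μ v = σ0 v := fun v hv => if_neg hv
  have hμ : ∀ v ∈ X.erase v0, μ v ∈ X.erase v0 ∧ μ (μ v) = v ∧ μ v ≠ v := by
    intro v hv
    have hv' := Finset.mem_erase.1 hv
    by_cases hvP : v ∈ P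
    · rw [hμ1 v hvP, hμ1 _ (hπ v hvP).1]
      exact ⟨hP (hπ v hvP).1, (hπ v hvP).2⟩
    · obtain ⟨h1, h2, h3⟩ := hσ0 v (hmX.2 ⟨hv'.2, hv'.1, hvP⟩)
      have h4 := hmX.1 h1
      rw [hμ2 v hvP, hμ2 _ h4.2.2]
      exact ⟨Finset.mem_erase.2 ⟨h4.2.1, h4.1⟩, h2, (LemL_adj_ne G h3).symm⟩
  have hYe : Even (X.erase v0).card := even_of_invol _ μ hμ
  have hXc : (X.erase v0).card + 1 = X.card := Finset.card_erase_add_one hv0
  have hXo : Odd X.card := by
    rw [← hXc]
    exact hYe.add_one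
  have hcX := hodd X hXo
  have hPne : P.Nonempty := by
    rw [← Finset.card_pos]
    omega
  obtain ⟨p, hp⟩ := hPne
  obtain ⟨hq, hqp, hqne⟩ := hπ p hp
  set q := π p with hqd
  let R : V → V → Prop := fun v w => G.Adj v w ∨ (v ∈ P ∧ v ≠ p ∧ v ≠ q ∧ w = π v)
  have hsym : ∀ v w, R v w → R w v := by
    rintro v w (h | ⟨h1, h2, h3, rfl⟩)
    · exact Or.inl (LemL_adj_symm G h)
    · right
      obtain ⟨k1, k2, k3⟩ := hπ v h1
      refine ⟨k1, ?_, ?_, k2.symm⟩
      · intro h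
        apply h3
        rw [hqd, ← h, k2]
      · intro h
        apply h2
        rw [← k2, h, hqp]
  have hirr : ∀ v, ¬ R v v := by
    rintro v (h | ⟨h1, h2, h3, h4⟩)
    · exact LemL_adj_ne G h rfl
    · exact (hπ v h1).2.2 h4.symm
  rcases tutte_bridge (X.erase v0) R hsym hirr with ⟨σ, hσ⟩ | ⟨S, K, hS, hK, hdis, hcl, heven, hlt⟩
  · -- a perfect matching
    have hmQ : ∀ {v}, v ∈ P.filter (fun v => v ≠ p ∧ v ≠ q ∧ σ v = π v) ↔
        v ∈ P ∧ v ≠ p ∧ v ≠ q ∧ σ v = π v := fun {v} => Finset.mem_filter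
    have hQc : ∀ v ∈ P.filter (fun v => v ≠ p ∧ v ≠ q ∧ σ v = π v),
        π v ∈ P.filter (fun v => v ≠ p ∧ v ≠ q ∧ σ v = π v) := by
      intro v hv
      obtain ⟨h1, h2, h3, h4⟩ := hmQ.1 hv
      obtain ⟨k1, k2, k3⟩ := hπ v h1
      refine hmQ.2 ⟨k1, ?_, ?_, ?_⟩
      · intro h
        apply h3
        rw [hqd, ← h, k2]
      · intro h
        apply h2
        rw [← k2, h, hqp]
      · rw [k2, ← h4]
        exact (hσ v (hP h1)).2.1
    refine ⟨P.filter (fun v => v ≠ p ∧ v ≠ q ∧ σ v = π v), ?_, hQc, σ, ?_⟩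
    · rw [Finset.filter_ssubset]
      exact ⟨p, hp, fun h => h.1 rfl⟩
    · intro v hv
      rw [Finset.mem_sdiff, Finset.mem_insert, not_or] at hv
      obtain ⟨h1, h2, h3⟩ := hσ v (Finset.mem_erase.2 ⟨hv.2.1, hv.1⟩)
      have h1' := Finset.mem_erase.1 h1
      refine ⟨?_, h2, ?_⟩
      · rw [Finset.mem_sdiff, Finset.mem_insert, not_or]
        refine ⟨h1'.2, h1'.1, fun h => hv.2.2 ?_⟩
        have h5 := hQc _ h
        rw [← (hmQ.1 h).2.2.2, h2] at h5
        exact h5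
      · rcases h3 with h3 | ⟨h4, h5, h6, h7⟩
        · exact h3
        · exact absurd (hmQ.2 ⟨h4, h5, h6, h7⟩) hv.2.2
  · -- a violator
    have hcard := LemL_parity (X.erase v0) S hS hYe K hK hdis heven hlt
    obtain ⟨hKc, hpS, hqS, x, hx, hxS, hxp, hxq, hxe⟩ := exits (X.erase v0) S μ hμ p q (hP hp) (hP hq)
      (hμ1 p hp) K hK hdis (by
        intro k hk v hv h1 h2
        have hvY := Finset.mem_sdiff.1 ((hK k hk).1 hv)
        have hmu := (hμ v hvY.1).1
        have hnR : ¬ R v (μ v) := fun h => h2 (hcl k hk v hv (μ v) (Finset.mem_sdiff.2 ⟨hmu, h1⟩) h)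
        by_contra hc
        rw [not_or] at hc
        apply hnR
        by_cases hvP : v ∈ P
        · exact Or.inr ⟨hvP, hc.1, hc.2, hμ1 v hvP⟩
        · rw [hμ2 v hvP]
          have hv' := Finset.mem_erase.1 hvY.1
          exact Or.inl (hσ0 v (hmX.2 ⟨hv'.2, hv'.1, hvP⟩)).2.2) hcard
    by_contra hno
    have hkY : ∀ k ∈ K, k ⊆ X.erase v0 := fun k hk v hv => (Finset.mem_sdiff.1 ((hK k hk).1 hv)).1
    have h3 : ∀ k ∈ K, ((P ∩ k).erase (x k)).card + r ≤ (G.cut k).card := by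
      intro k hk
      by_contra hcon
      rw [not_le] at hcon
      obtain ⟨hxk, hxn, hxc⟩ := hx k hk
      have hmP : ∀ {v}, v ∈ (P ∩ k).erase (x k) ↔ v ∈ P ∧ v ∈ k ∧ v ≠ x k := by
        intro v
        rw [Finset.mem_erase, Finset.mem_inter]
        tauto
      have hkX : ∀ {v}, v ∈ k → v ∈ X ∧ v ≠ v0 := by
        intro v hv
        have := hkY k hk hv
        rw [Finset.mem_erase] at this
        exact ⟨this.2, this.1⟩
      have hklt : k.card < n := by
        have := Finset.card_le_card (hkY k hk)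
        omega
      obtain ⟨Qk, hQ1, hQ2, hQ3⟩ := ih k.card hklt k (x k) hxk ((P ∩ k).erase (x k))
        (fun v hv => Finset.mem_erase.2 ⟨(hmP.1 hv).2.2, (hmP.1 hv).2.1⟩)
        (by
          intro v hv
          obtain ⟨a1, a2, a3⟩ := hmP.1 hv
          obtain ⟨k1, k2, k3⟩ := hπ v a1
          refine ⟨hmP.2 ⟨k1, ?_, ?_⟩, k2, k3⟩
          · have := hxc v a2 a3
            rw [hμ1 v a1] at this
            exact this
          · intro h
            apply hxn
            rw [← h, hμ1 _ k1, k2]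
            exact a2)
        (by
          intro v hv
          have hv' := Finset.mem_insert.1 hv
          by_cases hvP : v ∈ P
          · have hvk : v ∈ k := by
              rcases hv' with h | h
              · rw [h]; exact hxk
              · exact (hmP.1 h).2.1
            obtain ⟨e, he1, he2⟩ := hout v (Finset.mem_insert_of_mem hvP)
            exact ⟨e, LemL_cut_sub G (fun w hw => (hkX hw).1) he1 he2 hvk, he2⟩
          · have hvx : v = x k := by
              rcases hv' with h | h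
              · exact h
              · exact absurd (hmP.1 h).1 hvP
            subst hvx
            have h4 := hkX hxk
            exact LemL_adj_cut G (hσ0 _ (hmX.2 ⟨h4.1, h4.2, hvP⟩)).2.2 hxk (hμ2 _ hvP ▸ hxn))
        (by
          refine ⟨σ0, fun v hv => ?_⟩
          rw [Finset.mem_sdiff, Finset.mem_insert, not_or, hmP] at hv
          obtain ⟨a1, a2, a3⟩ := hv
          have hvP : v ∉ P := fun h => a3 ⟨h, a1, a2⟩
          have h4 := hkX a1
          obtain ⟨b1, b2, b3⟩ := hσ0 v (hmX.2 ⟨h4.1, h4.2, hvP⟩)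
          refine ⟨?_, b2, b3⟩
          rw [Finset.mem_sdiff, Finset.mem_insert, not_or, hmP]
          have h5 := hxc v a1 a2
          rw [hμ2 v hvP] at h5
          refine ⟨h5, ?_, fun h => (hmX.1 b1).2.2 h.1⟩
          intro h
          apply hxn
          rw [← h, hμ2 _ (hmX.1 b1).2.2, b2]
          exact a1)
        hcon rfl
      exact hno (LemL_glue G X v0 P π σ0 μ hπ hσ0 hμ1 hμ2 k (hkY k hk) (x k) hxk hxn hxc Qk hQ1 hQ2 hQ3)
    have hc := count G r hdeg X v0 hv0 S hS K (fun k hk => (hK k hk).1) hdis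
      (fun k hk v hv w hw hvw => hcl k hk v hv w hw (Or.inl hvw))
    have hcnt := LemL_count (X.erase v0) S P hS hP μ hμ
      (fun v hv => by rw [hμ1 v hv]; exact (hπ v hv).1) p q (hμ1 p hp) ((hμ1 q hq).trans hqp)
      K (fun k hk => (hK k hk).1) hdis x (fun k hk => (hx k hk).1) hxe
    have h4 : ∑ k ∈ K, ((P ∩ k).erase (x k)).card + K.card * r ≤ ∑ k ∈ K, (G.cut k).card := by
      have := Finset.sum_le_sum h3
      rw [Finset.sum_add_distrib, Finset.sum_const, smul_eq_mul] at this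
      exact this
    have h5 : (P ∩ S).card + 1 ≤ ∑ s ∈ insert v0 S, G.out X s := by
      have hv0S : v0 ∉ P ∩ S := fun h => (hPX (Finset.mem_inter.1 h).1).2 rfl
      have hsub : insert v0 (P ∩ S) ⊆ insert v0 S :=
        Finset.insert_subset_insert _ Finset.inter_subset_right
      calc (P ∩ S).card + 1 = (insert v0 (P ∩ S)).card := (Finset.card_insert_of_notMem hv0S).symm
        _ = ∑ s ∈ insert v0 (P ∩ S), 1 := by rw [Finset.sum_const, smul_eq_mul, mul_one]
        _ ≤ ∑ s ∈ insert v0 (P ∩ S), G.out X s := by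
          apply Finset.sum_le_sum
          intro s hs
          apply LemL_out G
          apply hout
          rcases Finset.mem_insert.1 hs with h | h
          · rw [h]; exact Finset.mem_insert_self _ _
          · exact Finset.mem_insert_of_mem (Finset.mem_inter.1 h).1
        _ ≤ ∑ s ∈ insert v0 S, G.out X s :=
          Finset.sum_le_sum_of_subset hsub
    have h6 : (P ∩ ((X.erase v0 \ S) \ K.biUnion id)).card ≤
        ∑ v ∈ ((X.erase v0) \ S) \ K.biUnion id, G.out X v := by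
      calc (P ∩ ((X.erase v0 \ S) \ K.biUnion id)).card
          = ∑ s ∈ P ∩ ((X.erase v0 \ S) \ K.biUnion id), 1 := by
            rw [Finset.sum_const, smul_eq_mul, mul_one]
        _ ≤ ∑ s ∈ P ∩ ((X.erase v0 \ S) \ K.biUnion id), G.out X s := by
          apply Finset.sum_le_sum
          intro s hs
          apply LemL_out G
          apply hout
          exact Finset.mem_insert_of_mem (Finset.mem_inter.1 hs).1
        _ ≤ _ := Finset.sum_le_sum_of_subset Finset.inter_subset_right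
    rw [hKc] at h4
    have h7 : (S.card + 2) * r = r * (S.card + 1) + r := by ring
    omega

end Pool.Agent.JKS
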