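import Pool.Agent.JKS.Defs
/-! MinB (1): the family of the sets X containing t with cut X ⊆ M \ N is closed under intersection;
it contains univ (empty cut); so it has a least member.  (An edge of cut (X ∩ Y) is in cut X or in
cut Y.) -/
namespace Pool.Agent.JKS
open Finset
open scoped Classical

/-- X contains t and its cut lies in M and is disjoint from N -/
def Fam {V E : Type} [Fintype E] (G : MG V E) (M N : Finset E) (t : V) (X : Finset V) : Prop :=
  t ∈ X ∧ ∀ e ∈ G.cut X, e ∈ M ∧ e ∉ N

theorem fam_inter {V E : Type} [Fintype E] (G : MG V E) (M N : Finset E) (t : V)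
    (X Y : Finset V) (hX : Fam G M N t X) (hY : Fam G M N t Y) : Fam G M N t (X ∩ Y) := by
  refine ⟨mem_inter.2 ⟨hX.1, hY.1⟩, ?_⟩
  intro e he
  rw [MG.cut, mem_filter] at he
  simp only [mem_inter] at he
  by_cases h1 : e ∈ G.cut X
  · exact hX.2 e h1
  by_cases h2 : e ∈ G.cut Y
  · exact hY.2 e h2
  exfalso
  rw [MG.cut, mem_filter] at h1 h2
  have a1 := fun h => h1 ⟨mem_univ _, h⟩
  have a2 := fun h => h2 ⟨mem_univ _, h⟩
  rcases he.2 with h | h <;> tauto

theorem fam_least {V E : Type} [Fintype V] [Fintype E] (G : MG V E) (M N : Finset E) (t : V) :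
    ∃ B : Finset V, Fam G M N t B ∧ ∀ X, Fam G M N t X → B ⊆ X := by
  have hex : Fam G M N t (univ : Finset V) := by
    refine ⟨mem_univ _, ?_⟩
    intro e he
    rw [MG.cut, mem_filter] at he
    rcases he.2 with h | h
    · exact absurd (mem_univ _) h.2
    · exact absurd (mem_univ _) h.1
  obtain ⟨B, hB, hBm⟩ := exists_min_image (univ.filter fun X : Finset V => Fam G M N t X) card
    ⟨univ, mem_filter.2 ⟨mem_univ _, hex⟩⟩
  rw [mem_filter] at hB
  refine ⟨B, hB.2, ?_⟩
  intro X hX
  have h1 := hBm (B ∩ X) (mem_filter.2 ⟨mem_univ _, fam_inter G M N t B X hB.2 hX⟩)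
  have h2 : B ∩ X = B := eq_of_subset_of_card_le inter_subset_left h1
  exact inter_eq_left.1 h2

/-- if B is the least member for M, and M' ∩ E(B) ⊆ M ∪ N, then B is contained in every member for M' -/
theorem least_mono {V E : Type} [Fintype V] [Fintype E] (G : MG V E) (M M' N : Finset E) (t : V)
    (B : Finset V) (hB : Fam G M N t B) (hmin : ∀ X, Fam G M N t X → B ⊆ X)
    (hM' : ∀ e ∈ M', G.fst e ∈ B → G.snd e ∈ B → e ∈ M ∨ e ∈ N) (X : Finset V)
    (hX : Fam G M' N t X) : B ⊆ X := by
  -- B ∩ X is in the family of M: an edge of cut (B ∩ X) with both ends in B is in cut X, so in M' \ N,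
  -- so in M; an edge of cut (B ∩ X) with an end outside B is in cut B.
  have key : Fam G M N t (B ∩ X) := by
    refine ⟨mem_inter.2 ⟨hB.1, hX.1⟩, ?_⟩
    intro e he
    by_cases h1 : e ∈ G.cut B
    · exact hB.2 e h1
    have he' := he
    rw [MG.cut, mem_filter] at he h1
    simp only [mem_inter] at he
    have a1 := fun h => h1 ⟨mem_univ _, h⟩
    have hb : G.fst e ∈ B ∧ G.snd e ∈ B := by
      rcases he.2 with h | h <;> tauto
    have hx : e ∈ G.cut X := by
      rw [MG.cut, mem_filter]
      refine ⟨mem_univ _, ?_⟩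
      rcases he.2 with h | h <;> tauto
    have h3 := hX.2 e hx
    rcases hM' e h3.1 hb.1 hb.2 with h | h
    · exact ⟨h, h3.2⟩
    · exact absurd h h3.2
  exact fun v hv => (mem_inter.1 (hmin _ key hv)).2

end Pool.Agent.JKS
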