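import Pool.Agent.JKS.Impr
import Pool.Agent.JKS.MinB
import Pool.Agent.JKS.Ex
/-! Main: the theorems. -/
namespace Pool.Agent.JKS
open Finset
open scoped Classical

theorem anchored {V E : Type} [Fintype V] [Fintype E] (G : MG V E) (r : ℕ) (hr : 2 ≤ r)
    (hdeg : ∀ v, G.deg v = r) (hodd : ∀ X : Finset V, Odd X.card → r ≤ (G.cut X).card)
    (N : Finset E) (hN : G.IsMatching N) (t : V) (ht : ¬ G.Cov N t) (e0 : E) (he : G.Inc e0 t) :
    ∃ M : Finset E, G.IsPM M ∧ e0 ∈ M ∧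
      ∀ X : Finset V, t ∈ X → (∀ e ∈ G.cut X, e ∈ M ∧ e ∉ N) → ∃ u ∈ X, u ≠ t ∧ ¬ G.Cov N u := by
  choose Bf hBf hBmin using fun M : Finset E => fam_least G M N t
  have hne : (Finset.univ.filter (fun M : Finset E => G.IsPM M ∧ e0 ∈ M)).Nonempty := by
    obtain ⟨M, hM, hM'⟩ := pm_through G r (by omega) hdeg hodd e0
    exact ⟨M, by simp [hM, hM']⟩
  obtain ⟨M, hMm, hmax⟩ := Finset.exists_max_image _ (fun M => (Bf M).card) hne
  simp only [mem_filter, mem_univ, true_and] at hMm hmax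
  refine ⟨M, hMm.1, hMm.2, fun X htX hX => ?_⟩
  by_contra hcon
  push Not at hcon
  have hBX : Bf M ⊆ X := hBmin M X ⟨htX, hX⟩
  obtain ⟨M', hM', he', hin, e, hec, heM'⟩ := improve G r hr (fun v => (hdeg v).le) hodd N hN M hMm.1 t ht
    e0 hMm.2 he (Bf M) (hBf M).1 (hBf M).2 (fun u hu hut => hcon u (hBX hu) hut)
  have hsub : Bf M ⊆ Bf M' := least_mono G M M' N t (Bf M) (hBf M) (hBmin M) hin (Bf M') (hBf M')
  have hneq : Bf M ≠ Bf M' := by
    intro h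
    exact heM' ((h ▸ (hBf M').2) e hec).1
  have := Finset.card_lt_card (Finset.ssubset_iff_subset_ne.mpr ⟨hsub, hneq⟩)
  have := hmax M' ⟨hM', he'⟩
  omega

end Pool.Agent.JKS
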