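import Pool.Agent.JKS.Fin
/-! Swi: switching along cycles of length 4. -/
namespace Pool.Agent.JKS
open Finset
open scoped Classical

variable {V E : Type}

/-- the edge `e` lies in a cycle of length 2, 3 (`Short`) or 4 -/
def MG.ShortFour (G : MG V E) (e : E) : Prop :=
  G.Short e ∨ ∃ c d, G.Adj (G.snd e) c ∧ G.Adj c d ∧ G.Adj d (G.fst e) ∧ c ≠ G.fst e ∧ d ≠ G.snd e

/-- `v` and `w` are ends of one edge outside the edge set `M` (so equal or adjacent in `G - M`) -/
def MG.Off (G : MG V E) (M : Finset E) (v w : V) : Prop := ∃ e, e ∉ M ∧ G.Inc e v ∧ G.Inc e w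

/-- `v` and `w` are joined by a path in `G - M` -/
def MG.Con (G : MG V E) (M : Finset E) (v w : V) : Prop := Relation.ReflTransGen (G.Off M) v w

theorem Swi_two (G : MG V E) {e : E} {v w u : V} (hv : G.Inc e v) (hw : G.Inc e w)
    (hvw : v ≠ w) (hu : G.Inc e u) : u = v ∨ u = w := by
  unfold MG.Inc at *
  rcases hv with hv | hv <;> rcases hw with hw | hw <;> rcases hu with hu | hu <;> subst hv <;>
    first
    | exact absurd hw hvw
    | (subst hw; subst hu; tauto)

theorem Swi_off_symm (G : MG V E) (M : Finset E) {v w : V} (h : G.Off M v w) : G.Off M w v := by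
  obtain ⟨e, h1, h2, h3⟩ := h
  exact ⟨e, h1, h3, h2⟩

theorem Swi_con_symm (G : MG V E) (M : Finset E) {v w : V} (h : G.Con M v w) : G.Con M w v := by
  induction h with
  | refl => exact Relation.ReflTransGen.refl
  | tail _ hbc ih => exact Relation.ReflTransGen.head (Swi_off_symm G M hbc) ih

theorem Swi_con_mono (G : MG V E) (M M' : Finset E) (hMM : M' ⊆ M) {v w : V} (h : G.Con M v w) :
    G.Con M' v w := by
  induction h with
  | refl => exact Relation.ReflTransGen.refl
  | tail _ hbc ih =>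
    obtain ⟨e, h1, h2, h3⟩ := hbc
    exact ih.tail ⟨e, fun h => h1 (hMM h), h2, h3⟩

theorem Swi_cut [Fintype E] (G : MG V E) {X : Finset V} {e : E} {v w : V} (hv : G.Inc e v)
    (hw : G.Inc e w) (hvX : v ∈ X) (hwX : w ∉ X) : e ∈ G.cut X := by
  rw [mem_cut]
  rcases hv with hv | hv <;> rcases hw with hw | hw
  · exact absurd (hv.symm.trans hw ▸ hvX) hwX
  · rw [hv, hw]; exact Or.inl ⟨hvX, hwX⟩
  · rw [hv, hw]; exact Or.inr ⟨hwX, hvX⟩
  · exact absurd (hv.symm.trans hw ▸ hvX) hwX

theorem Swi_cut_con [Fintype E] (G : MG V E) (M : Finset E) (X : Finset V) (hX : G.cut X ⊆ M)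
    {v w : V} (h : G.Con M v w) (hv : v ∈ X) : w ∈ X := by
  induction h with
  | refl => exact hv
  | tail _ hbc ih =>
    obtain ⟨e, h1, h2, h3⟩ := hbc
    by_contra hc
    exact h1 (hX (Swi_cut G h2 h3 ih hc))

theorem Swi_cut_sub [Fintype E] (G : MG V E) (M M' : Finset E)
    (h : ∀ v w, G.Con M v w → G.Con M' v w) (X : Finset V) (hX : G.cut X ⊆ M') : G.cut X ⊆ M := by
  intro e he
  by_contra heM
  rw [mem_cut] at he
  rcases he with ⟨h1, h2⟩ | ⟨h1, h2⟩
  · exact h2 (Swi_cut_con G M' X hX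
      (h _ _ (Relation.ReflTransGen.single ⟨e, heM, Or.inl rfl, Or.inr rfl⟩)) h1)
  · exact h1 (Swi_cut_con G M' X hX
      (h _ _ (Relation.ReflTransGen.single ⟨e, heM, Or.inr rfl, Or.inl rfl⟩)) h2)

theorem Swi_even [Fintype E] (G : MG V E) (F : Finset E)
    (hF : ∀ v, Even (F.filter (fun e => G.Inc e v)).card) (S : Finset V) :
    Even (F.filter (fun e => e ∈ G.cut S)).card := by
  have h1 : ∑ v ∈ S, (F.filter (fun e => G.Inc e v)).card =
      (F.filter (fun e => e ∈ G.cut S)).card +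
        2 * (F.filter (fun e => G.fst e ∈ S ∧ G.snd e ∈ S)).card := by
    have h2 : ∑ v ∈ S, (F.filter (fun e => G.Inc e v)).card =
        ∑ e ∈ F, ∑ v ∈ S, (if G.Inc e v then 1 else 0) := by
      rw [Finset.sum_comm]
      refine Finset.sum_congr rfl fun v _ => ?_
      rw [Finset.card_filter]
    rw [h2, Finset.card_filter, Finset.card_filter, Finset.mul_sum, ← Finset.sum_add_distrib]
    refine Finset.sum_congr rfl fun e _ => ?_
    rw [Par_inc]
    simp only [mem_cut]
    by_cases h2 : G.fst e ∈ S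
    · by_cases h3 : G.snd e ∈ S
      · simp [h2, h3]
      · simp [h2, h3]
    · by_cases h3 : G.snd e ∈ S
      · simp [h2, h3]
      · simp [h2, h3]
  have h3 : Even (∑ v ∈ S, (F.filter (fun e => G.Inc e v)).card) :=
    Finset.even_sum _ fun v _ => hF v
  rw [h1] at h3
  rcases h3 with ⟨k, hk⟩
  exact (Nat.even_add.mp ⟨k, hk⟩).mpr (even_two_mul _)

theorem Swi_off_even [Fintype E] (G : MG V E) (hdeg : ∀ v, Odd (G.deg v)) (M : Finset E)
    (hM : G.IsPM M) (v : V) : Even (((Finset.univ : Finset E) \ M).filter (fun e => G.Inc e v)).card := by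
  have h1 : (M.filter (fun e => G.Inc e v)).card = 1 := by
    obtain ⟨f, hf, hu⟩ := hM v
    rw [Finset.card_eq_one]
    refine ⟨f, ?_⟩
    ext e
    simp only [mem_filter, mem_singleton]
    constructor
    · intro he; exact hu e he
    · rintro rfl; exact hf
  have h2 : G.deg v = (M.filter (fun e => G.Inc e v)).card +
      (((Finset.univ : Finset E) \ M).filter (fun e => G.Inc e v)).card := by
    unfold MG.deg
    rw [← Finset.card_union_of_disjoint]
    · congr 1
      ext e
      simp only [mem_filter, mem_univ, true_and, mem_union, mem_sdiff]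
      by_cases hm : e ∈ M
      · simp [hm]
      · simp [hm]
    · rw [Finset.disjoint_left]
      intro e he
      simp only [mem_filter, mem_sdiff, mem_univ, true_and] at he ⊢
      tauto
  have h3 := hdeg v
  rw [h2, h1] at h3
  rw [Nat.odd_iff] at h3
  rw [Nat.even_iff]
  omega

theorem Swi_con [Fintype V] [Fintype E] (G : MG V E) (hdeg : ∀ v, Odd (G.deg v)) (M : Finset E)
    (hM : G.IsPM M) (X : Finset V) (hX : G.cut X ⊆ M) (a b c d : V) (g k : E)
    (hd : d ∈ X) (hb : b ∉ X) (hc : c ∉ X) (hbc : b ≠ c) (had : a ≠ d)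
    (hkd : G.Inc k d) (hka : G.Inc k a) (hgb : G.Inc g b) (hgc : G.Inc g c) (hkM : k ∉ M) :
    G.Con (insert g (insert k M)) d a := by
  by_contra hno
  set M1 := insert g (insert k M) with hM1
  set S : Finset V := Finset.univ.filter (fun x => G.Con M1 d x) with hS
  have hdS : d ∈ S := by rw [hS, mem_filter]; exact ⟨mem_univ _, Relation.ReflTransGen.refl⟩
  have haS : a ∉ S := by rw [hS, mem_filter]; exact fun h => hno h.2
  have hMM1 : M ⊆ M1 := fun e he => by rw [hM1]; simp [he]
  have hSX : S ⊆ X := by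
    intro x hx
    rw [hS, mem_filter] at hx
    exact Swi_cut_con G M1 X (hX.trans hMM1) hx.2 hd
  have hbS : b ∉ S := fun h => hb (hSX h)
  have hcS : c ∉ S := fun h => hc (hSX h)
  have hev := Swi_even G ((Finset.univ : Finset E) \ M) (Swi_off_even G hdeg M hM) S
  have hone : ((Finset.univ : Finset E) \ M).filter (fun e => e ∈ G.cut S) = {k} := by
    ext f
    simp only [mem_filter, mem_sdiff, mem_univ, true_and, mem_singleton]
    constructor
    · rintro ⟨hfM, hf⟩
      by_contra hfk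
      have hfg : f ≠ g := by
        rintro rfl
        rw [mem_cut] at hf
        rcases hf with ⟨h1, h2⟩ | ⟨h1, h2⟩
        · rcases Swi_two G hgb hgc hbc (Or.inl rfl : G.Inc f (G.fst f)) with h | h
          · rw [h] at h1; exact hbS h1
          · rw [h] at h1; exact hcS h1
        · rcases Swi_two G hgb hgc hbc (Or.inr rfl : G.Inc f (G.snd f)) with h | h
          · rw [h] at h2; exact hbS h2
          · rw [h] at h2; exact hcS h2
      have hfM1 : f ∉ M1 := by
        rw [hM1]; simp [hfg, hfk, hfM]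
      rw [mem_cut] at hf
      rcases hf with ⟨h1, h2⟩ | ⟨h1, h2⟩
      · rw [hS, mem_filter] at h1 h2
        exact h2 ⟨mem_univ _, h1.2.tail ⟨f, hfM1, Or.inl rfl, Or.inr rfl⟩⟩
      · rw [hS, mem_filter] at h1 h2
        exact h1 ⟨mem_univ _, h2.2.tail ⟨f, hfM1, Or.inr rfl, Or.inl rfl⟩⟩
    · rintro rfl
      exact ⟨hkM, Swi_cut G hkd hka hdS haS⟩
  rw [hone] at hev
  simp at hev

theorem Swi_adj_inc (G : MG V E) {v w : V} (h : G.Adj v w) : v ≠ w ∧ ∃ e, G.Inc e v ∧ G.Inc e w := by
  obtain ⟨e, ⟨h1, h2⟩ | ⟨h1, h2⟩⟩ := h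
  · exact ⟨fun h => G.ne e (h1.trans (h.trans h2.symm)), e, Or.inl h1, Or.inr h2⟩
  · exact ⟨fun h => G.ne e (h1.trans (h.symm.trans h2.symm)), e, Or.inr h2, Or.inl h1⟩

/-- one switch, with `a = fst e ∈ X` written without orientation -/
theorem Swi_switch_aux [Fintype V] [Fintype E] (G : MG V E) (hdeg : ∀ v, Odd (G.deg v))
    (M : Finset E) (hM : G.IsPM M) (X : Finset V) (hX : G.cut X ⊆ M) (e : E) (a b c d : V)
    (hea : G.Inc e a) (heb : G.Inc e b) (haX : a ∈ X) (hbX : b ∉ X)
    (h1 : G.Adj b c) (h2 : G.Adj c d) (h3 : G.Adj d a) (hca : c ≠ a) (hdb : d ≠ b) :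
    ∃ M' : Finset E, G.IsPM M' ∧ (∀ v w, G.Con M v w → G.Con M' v w) ∧
      ∃ v w, G.Con M' v w ∧ ¬ G.Con M v w := by
  have hab : a ≠ b := by rintro rfl; exact hbX haX
  obtain ⟨hbc, g, hgb, hgc⟩ := Swi_adj_inc G h1
  obtain ⟨hcd, h, hhc, hhd⟩ := Swi_adj_inc G h2
  obtain ⟨hda, k, hkd, hka⟩ := Swi_adj_inc G h3
  have hinj : ∀ v f f', f ∈ M → f' ∈ M → G.Inc f v → G.Inc f' v → f = f' := by
    intro v f f' hf hf' hfv hfv'
    exact (hM v).unique ⟨hf, hfv⟩ ⟨hf', hfv'⟩
  have heM : e ∈ M := hX (Swi_cut G hea heb haX hbX)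
  have hgM : g ∉ M := by
    intro hg
    have := hinj b g e hg heM hgb heb
    rw [this] at hgc
    rcases Swi_two G hea heb hab hgc with h | h
    · exact hca h
    · exact hbc h.symm
  have hkM : k ∉ M := by
    intro hk
    have := hinj a k e hk heM hka hea
    rw [this] at hkd
    rcases Swi_two G hea heb hab hkd with h | h
    · exact hda h
    · exact hdb h
  have hcX : c ∉ X := fun hc => hgM (hX (Swi_cut G hgc hgb hc hbX))
  have hdX : d ∈ X := by
    by_contra hd
    exact hkM (hX (Swi_cut G hka hkd haX hd))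
  have hhM : h ∈ M := hX (Swi_cut G hhd hhc hdX hcX)
  have hac : a ≠ c := hca.symm
  -- incidences
  have ie : ∀ u, G.Inc e u → u = a ∨ u = b := fun u hu => Swi_two G hea heb hab hu
  have ig : ∀ u, G.Inc g u → u = b ∨ u = c := fun u hu => Swi_two G hgb hgc hbc hu
  have ih : ∀ u, G.Inc h u → u = c ∨ u = d := fun u hu => Swi_two G hhc hhd hcd hu
  have ik : ∀ u, G.Inc k u → u = d ∨ u = a := fun u hu => Swi_two G hkd hka hda hu
  set M' : Finset E := insert g (insert k ((M.erase e).erase h)) with hM'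
  have memM' : ∀ f, f ∈ M' ↔ f = g ∨ f = k ∨ (f ≠ h ∧ f ≠ e ∧ f ∈ M) := by
    intro f; rw [hM']; simp only [mem_insert, mem_erase]
  have hsub : M' ⊆ insert g (insert k M) := by
    intro f hf
    rw [memM'] at hf
    simp only [mem_insert]
    tauto
  refine ⟨M', ?_, ?_, a, b, ?_, ?_⟩
  · intro v
    by_cases hva : v = a
    · subst hva
      refine ⟨k, ⟨(memM' k).mpr (Or.inr (Or.inl rfl)), hka⟩, ?_⟩
      rintro f ⟨hf, hfv⟩
      rcases (memM' f).mp hf with rfl | rfl | ⟨_, hfe, hfM⟩
      · rcases ig _ hfv with h | h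
        · exact absurd h hab
        · exact absurd h hac
      · rfl
      · exact absurd (hinj _ f e hfM heM hfv hea) hfe
    by_cases hvb : v = b
    · subst hvb
      refine ⟨g, ⟨(memM' g).mpr (Or.inl rfl), hgb⟩, ?_⟩
      rintro f ⟨hf, hfv⟩
      rcases (memM' f).mp hf with rfl | rfl | ⟨_, hfe, hfM⟩
      · rfl
      · rcases ik _ hfv with h | h
        · exact absurd h hdb.symm
        · exact absurd h hva
      · exact absurd (hinj _ f e hfM heM hfv heb) hfe
    by_cases hvc : v = c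
    · subst hvc
      refine ⟨g, ⟨(memM' g).mpr (Or.inl rfl), hgc⟩, ?_⟩
      rintro f ⟨hf, hfv⟩
      rcases (memM' f).mp hf with rfl | rfl | ⟨hfh, _, hfM⟩
      · rfl
      · rcases ik _ hfv with h | h
        · exact absurd h hcd
        · exact absurd h hva
      · exact absurd (hinj _ f h hfM hhM hfv hhc) hfh
    by_cases hvd : v = d
    · subst hvd
      refine ⟨k, ⟨(memM' k).mpr (Or.inr (Or.inl rfl)), hkd⟩, ?_⟩
      rintro f ⟨hf, hfv⟩
      rcases (memM' f).mp hf with rfl | rfl | ⟨hfh, _, hfM⟩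
      · rcases ig _ hfv with h | h
        · exact absurd h hvb
        · exact absurd h hvc
      · rfl
      · exact absurd (hinj _ f h hfM hhM hfv hhd) hfh
    obtain ⟨f, ⟨hfM, hfv⟩, hu⟩ := hM v
    refine ⟨f, ⟨(memM' f).mpr (Or.inr (Or.inr ⟨?_, ?_, hfM⟩)), hfv⟩, ?_⟩
    · rintro rfl
      rcases ih _ hfv with h | h
      · exact hvc h
      · exact hvd h
    · rintro rfl
      rcases ie _ hfv with h | h
      · exact hva h
      · exact hvb h
    · rintro f' ⟨hf', hfv'⟩
      rcases (memM' f').mp hf' with rfl | rfl | ⟨_, _, hfM'⟩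
      · rcases ig _ hfv' with h | h
        · exact absurd h hvb
        · exact absurd h hvc
      · rcases ik _ hfv' with h | h
        · exact absurd h hvd
        · exact absurd h hva
      · exact hu f' ⟨hfM', hfv'⟩
  · have c1 : G.Con M' d a :=
      Swi_con_mono G _ _ hsub (Swi_con G hdeg M hM X hX a b c d g k hdX hbX hcX hbc hda.symm
        hkd hka hgb hgc hkM)
    have c2 : G.Con M' c b := by
      have hX' : G.cut (Finset.univ \ X) ⊆ M := by rw [cut_compl]; exact hX
      have := Swi_con G hdeg M hM (Finset.univ \ X) hX' b a d c k g (by simp [hcX]) (by simp [haX])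
        (by simp [hdX]) hda.symm hbc hgc hgb hka hkd hgM
      refine Swi_con_mono G _ _ ?_ this
      intro f hf
      have := hsub hf
      simp only [mem_insert] at this ⊢
      tauto
    intro v w hvw
    induction hvw with
    | refl => exact Relation.ReflTransGen.refl
    | @tail x y _ hxy ihh =>
      refine ihh.trans ?_
      obtain ⟨f, hfM, hfx, hfy⟩ := hxy
      by_cases hfM' : f ∈ M'
      · rcases (memM' f).mp hfM' with rfl | rfl | ⟨_, _, hfM''⟩
        · rcases ig _ hfx with rfl | rfl <;> rcases ig _ hfy with rfl | rfl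
          · exact Relation.ReflTransGen.refl
          · exact Swi_con_symm G M' c2
          · exact c2
          · exact Relation.ReflTransGen.refl
        · rcases ik _ hfx with rfl | rfl <;> rcases ik _ hfy with rfl | rfl
          · exact Relation.ReflTransGen.refl
          · exact c1
          · exact Swi_con_symm G M' c1
          · exact Relation.ReflTransGen.refl
        · exact absurd hfM'' hfM
      · exact Relation.ReflTransGen.single ⟨f, hfM', hfx, hfy⟩
  · refine Relation.ReflTransGen.single ⟨e, ?_, hea, heb⟩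
    rw [memM']
    rintro (rfl | rfl | ⟨_, hne, _⟩)
    · exact hgM heM
    · exact hkM heM
    · exact hne rfl
  · intro hcon
    exact hbX (Swi_cut_con G M X hX hcon haX)

theorem Swi_switch [Fintype V] [Fintype E] (G : MG V E) (hdeg : ∀ v, Odd (G.deg v))
    (M : Finset E) (hM : G.IsPM M) (X : Finset V) (hX : G.cut X ⊆ M) (e : E) (he : e ∈ G.cut X)
    (hs : G.ShortFour e) :
    ∃ M' : Finset E, G.IsPM M' ∧ (∀ v w, G.Con M v w → G.Con M' v w) ∧
      ∃ v w, G.Con M' v w ∧ ¬ G.Con M v w := by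
  rcases hs with hs | ⟨c, d, h1, h2, h3, hca, hdb⟩
  · exact (short_not_mem G M hM X (fun f hf => hX hf) e he hs).elim
  · rcases (mem_cut G X e).mp he with ⟨p, q⟩ | ⟨p, q⟩
    · exact Swi_switch_aux G hdeg M hM X hX e _ _ c d (Or.inl rfl) (Or.inr rfl) p q h1 h2 h3 hca hdb
    · exact Swi_switch_aux G hdeg M hM (Finset.univ \ X) (by rw [cut_compl]; exact hX) e _ _ c d
        (Or.inl rfl) (Or.inr rfl) (by simp [p]) (by simp [q]) h1 h2 h3 hca hdb

/-- the best matching above `M0` -/
theorem Swi_best [Fintype V] [Fintype E] (G : MG V E) (hdeg : ∀ v, Odd (G.deg v))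
    (M0 : Finset E) (hM0 : G.IsPM M0) :
    ∃ M : Finset E, G.IsPM M ∧ (∀ v w, G.Con M0 v w → G.Con M v w) ∧
      ∀ X : Finset V, G.cut X ⊆ M → G.cut X ⊆ M0 ∧ ∀ e ∈ G.cut X, ¬ G.ShortFour e := by
  have hne : (Finset.univ.filter (fun M : Finset E => G.IsPM M ∧
      ∀ v w, G.Con M0 v w → G.Con M v w)).Nonempty := ⟨M0, by simp [hM0]⟩
  obtain ⟨M, hMm, hmax⟩ := Finset.exists_max_image _
    (fun M => ((Finset.univ : Finset (V × V)).filter (fun p => G.Con M p.1 p.2)).card) hne
  simp only [mem_filter, mem_univ, true_and] at hMm hmax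
  refine ⟨M, hMm.1, hMm.2, fun X hX => ⟨Swi_cut_sub G M0 M hMm.2 X hX, fun e he hs => ?_⟩⟩
  obtain ⟨M', hM', hle, v, w, hvw, hvw'⟩ := Swi_switch G hdeg M hMm.1 X hX e he hs
  have h1 := hmax M' ⟨hM', fun v w h => hle v w (hMm.2 v w h)⟩
  have h2 : (Finset.univ : Finset (V × V)).filter (fun p => G.Con M p.1 p.2) ⊂
      (Finset.univ : Finset (V × V)).filter (fun p => G.Con M' p.1 p.2) := by
    rw [Finset.ssubset_iff_of_subset]
    · exact ⟨(v, w), by simp [hvw], by simp [hvw']⟩
    · intro p hp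
      simp only [mem_filter, mem_univ, true_and] at hp ⊢
      exact hle _ _ hp
  have h3 := Finset.card_lt_card h2
  omega

end Pool.Agent.JKS
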