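import Pool.Agent.JKS.Swi
/-! SwiCor: corollaries of the switching theorem. -/
namespace Pool.Agent.JKS
open Finset
open scoped Classical

variable {V E : Type}

theorem SwiCor_two [Fintype V] [Fintype E] (G : MG V E) (h5 : ∀ v, G.deg v = 5)
    (h4 : ∀ X : Finset V, X.Nonempty → X ≠ Finset.univ → 4 ≤ (G.cut X).card)
    (N : Finset E) (hN : G.IsMatching N)
    (hU : (Finset.univ.filter (fun v => ¬ G.Cov N v)).card ≤ 2) :
    ∃ M : Finset E, G.IsPM M ∧ ∀ X : Finset V, Odd X.card → G.cut X ⊆ M →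
      (∃ f ∈ N, f ∈ G.cut X) ∧ ∀ f ∈ G.cut X, ¬ G.ShortFour f := by
  have hodd : ∀ v, Odd (G.deg v) := fun v => by rw [h5]; decide
  -- it suffices to find one matching all whose odd cuts meet N
  suffices h : ∃ M0 : Finset E, G.IsPM M0 ∧ ∀ X : Finset V, Odd X.card → G.cut X ⊆ M0 →
      ∃ f ∈ N, f ∈ G.cut X by
    obtain ⟨M0, hM0, hc⟩ := h
    obtain ⟨M, hM, _, hb⟩ := Swi_best G hodd M0 hM0
    exact ⟨M, hM, fun X hX hXM => ⟨hc X hX (hb X hXM).1, (hb X hXM).2⟩⟩
  have hVe : Even (Finset.univ : Finset V).card := by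
    by_contra h
    rw [Nat.not_even_iff_odd] at h
    have := odd_cut_five G h5 h4 Finset.univ h
    rw [cut_univ] at this
    simp at this
  have hcovE : Even (Finset.univ.filter (fun v => G.Cov N v)).card :=
    even_covered G N hN Finset.univ (by rw [cut_univ]; simp)
  have hsum : (Finset.univ.filter (fun v => G.Cov N v)).card +
      (Finset.univ.filter (fun v => ¬ G.Cov N v)).card = (Finset.univ : Finset V).card := by
    rw [Finset.card_filter_add_card_filter_not]
  have hUe : Even (Finset.univ.filter (fun v => ¬ G.Cov N v)).card := by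
    rw [← hsum] at hVe
    exact (Nat.even_add.mp hVe).mp hcovE
  by_cases hex : ∃ t, ¬ G.Cov N t
  · obtain ⟨t, ht⟩ := hex
    have hd : 0 < G.deg t := by rw [h5]; norm_num
    obtain ⟨e0, he0⟩ := Finset.card_pos.mp hd
    simp only [mem_filter, mem_univ, true_and] at he0
    have htm : t ∈ Finset.univ.filter (fun v => ¬ G.Cov N v) := by simp [ht]
    have h2 : (Finset.univ.filter (fun v => ¬ G.Cov N v)).card = 2 := by
      have hpos := Finset.card_pos.mpr ⟨t, htm⟩
      obtain ⟨k, hk⟩ := hUe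
      omega
    obtain ⟨a, b, hab, hset⟩ := Finset.card_eq_two.mp h2
    have hchar : ∀ v, ¬ G.Cov N v ↔ v = a ∨ v = b := by
      intro v
      have : v ∈ Finset.univ.filter (fun v => ¬ G.Cov N v) ↔ v ∈ ({a, b} : Finset V) := by rw [hset]
      simpa using this
    have key : ∀ s, s ≠ t → (∀ v, ¬ G.Cov N v ↔ v = s ∨ v = t) →
        ∃ M0 : Finset E, G.IsPM M0 ∧ ∀ X : Finset V, Odd X.card → G.cut X ⊆ M0 →
          ∃ f ∈ N, f ∈ G.cut X := by
      intro s hst hs
      obtain ⟨M, hM, _, h⟩ := off_N G 5 (by norm_num) h5 (fun X hX => odd_cut_five G h5 h4 X hX) N hN s t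
        hst (fun v => by rw [← not_iff_not, hs]; tauto) e0 he0
      refine ⟨M, hM, fun X hX hc => ?_⟩
      obtain ⟨e, h1, h2⟩ := h X hX (fun e he => hc he)
      exact ⟨e, h2, h1⟩
    rcases (hchar t).mp ht with rfl | rfl
    · exact key b hab.symm (fun v => by rw [hchar]; tauto)
    · exact key a hab hchar
  · push Not at hex
    have hPM : G.IsPM N := by
      intro v
      obtain ⟨e, heN, hev⟩ := hex v
      exact ⟨e, ⟨heN, hev⟩, fun f hf => hN v f hf.1 e heN hf.2 hev⟩
    refine ⟨N, hPM, fun X hX hc => ?_⟩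
    have h5' := odd_cut_five G h5 h4 X hX
    obtain ⟨e, he⟩ := Finset.card_pos.mp (by omega : 0 < (G.cut X).card)
    exact ⟨e, hc he, he⟩

end Pool.Agent.JKS
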